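import Pool.Agent.Full.Net.Sum
import Pool.Agent.Full.Def.Surf

/-!
# The six vertex network of a tiled surface and its expansion over strands

`net T g K F` is the sum over all orientations of the sides of the tiles (glued sides are oriented
consistently: the arrow leaves one tile and enters the other one).  A tile has two outgoing and two
incoming sides; its weight is `1 / 2` if the outgoing sides are adjacent and `cos (4 K)` if they are
opposite (`K = π / 24`: `√3 / 2`).  `F x b` is the factor of the half edge `x` (walls, seams, twists,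
sources), `b = true` when the arrow leaves the tile.

`net_eq`: the network is the average over all configurations `ω` of the product over the strands of
the sum over the two orientations, where each quarter turn to the left has the phase `2 K`.
The left hand side is invariant under `K → -K`.
-/

set_option autoImplicit false

namespace Full
open Function Relation Finset

noncomputable section

/-- sign of an arrow -/
def sgn (b : Bool) : ℤ := if b then 1 else -1

@[simp] lemma sgn_true : sgn true = 1 := rfl
@[simp] lemma sgn_false : sgn false = -1 := rfl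
@[simp] lemma sgn_not (b : Bool) : sgn (!b) = -sgn b := by cases b <;> simp

/-- turning (in left quarter turns) of the arc of a tile with bit `b` which leaves through `d` -/
def Dir.tt (b : Bool) (d : Dir) : ℤ := if Dir.mt b d = d.ccw then 1 else -1

lemma Dir.tt_mt (b : Bool) (d : Dir) : Dir.tt b (Dir.mt b d) = -Dir.tt b d := by
  cases b <;> cases d <;> decide

/-- the weight of a tile, `o d = true`: the arrow on the side `d` is outgoing -/
def tw (K : ℝ) (o : Dir → Bool) : ℂ :=
  match o .E, o .N, o .W, o .S with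
  | true, true, false, false => 1 / 2
  | false, true, true, false => 1 / 2
  | false, false, true, true => 1 / 2
  | true, false, false, true => 1 / 2
  | true, false, true, false => Complex.cos (4 * K)
  | false, true, false, true => Complex.cos (4 * K)
  | _, _, _, _ => 0

lemma tw_neg (K : ℝ) (o : Dir → Bool) : tw (-K) o = tw K o := by
  unfold tw
  have : Complex.cos (4 * ((-K : ℝ) : ℂ)) = Complex.cos (4 * (K : ℂ)) := by
    rw [← Complex.cos_neg]
    congr 1
    push_cast
    ring
  rw [this]

/-- the unit phase -/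
def ph (K : ℝ) (n : ℤ) : ℂ := Complex.exp (Complex.I * (K * n))

lemma ph_add (K : ℝ) (a b : ℤ) : ph K (a + b) = ph K a * ph K b := by
  unfold ph
  rw [← Complex.exp_add]
  congr 1
  push_cast
  ring

@[simp] lemma ph_zero (K : ℝ) : ph K 0 = 1 := by
  unfold ph
  simp

lemma ph_cos (K : ℝ) (n : ℤ) : ph K n + ph K (-n) = 2 * Complex.cos (K * n) := by
  unfold ph
  rw [Complex.cos]
  push_cast
  have e1 : Complex.I * (↑K * ↑n) = ↑K * ↑n * Complex.I := by ring
  have e2 : Complex.I * (↑K * -↑n) = -(↑K * ↑n) * Complex.I := by ring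
  rw [e1, e2]
  ring

open Classical in
/-- the tile with a bit: phases of the two arcs -/
def tb (K : ℝ) (o : Dir → Bool) (b : Bool) : ℂ :=
  if ∀ d, o (Dir.mt b d) = !o d then ∏ d, ph K (sgn (o d) * Dir.tt b d) else 0

/-- **a tile is the average of its two bits** -/
lemma tw_eq (K : ℝ) (o : Dir → Bool) : tw K o = (1 / 2) * (tb K o true + tb K o false) := by
  have hc : ∀ b, (∀ d, o (Dir.mt b d) = !o d) ↔
      (o (Dir.mt b .E) = !o .E ∧ o (Dir.mt b .N) = !o .N ∧ o (Dir.mt b .W) = !o .W ∧
        o (Dir.mt b .S) = !o .S) := fun b =>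
    ⟨fun h => ⟨h _, h _, h _, h _⟩, fun h d => by
      cases d
      · exact h.1
      · exact h.2.1
      · exact h.2.2.1
      · exact h.2.2.2⟩
  have hp : ∀ f : Dir → ℂ, ∏ d, f d = f .E * (f .N * (f .W * f .S)) := by
    intro f
    have h : (Finset.univ : Finset Dir) = {Dir.E, Dir.N, Dir.W, Dir.S} := by decide
    rw [h, Finset.prod_insert (by decide), Finset.prod_insert (by decide),
      Finset.prod_insert (by decide), Finset.prod_singleton]
  have t1 : Dir.tt true .E = -1 := by decide
  have t2 : Dir.tt true .N = 1 := by decide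
  have t3 : Dir.tt true .W = -1 := by decide
  have t4 : Dir.tt true .S = 1 := by decide
  have t5 : Dir.tt false .E = 1 := by decide
  have t6 : Dir.tt false .N = -1 := by decide
  have t7 : Dir.tt false .W = 1 := by decide
  have t8 : Dir.tt false .S = -1 := by decide
  have c4 : Complex.cos (4 * (K : ℂ)) = (1 / 2) * (ph K 4 + ph K (-4)) := by
    rw [ph_cos]
    push_cast
    rw [mul_comm (4 : ℂ)]
    ring
  have ht : ∀ b, tb K o b = if (o (Dir.mt b .E) = !o .E ∧ o (Dir.mt b .N) = !o .N ∧
      o (Dir.mt b .W) = !o .W ∧ o (Dir.mt b .S) = !o .S) then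
      ph K (sgn (o .E) * Dir.tt b .E) * (ph K (sgn (o .N) * Dir.tt b .N) *
        (ph K (sgn (o .W) * Dir.tt b .W) * ph K (sgn (o .S) * Dir.tt b .S))) else 0 := by
    intro b
    unfold tb
    rw [hp]
    by_cases h : ∀ d, o (Dir.mt b d) = !o d
    · rw [if_pos h, if_pos ((hc b).1 h)]
    · rw [if_neg h, if_neg (fun h' => h ((hc b).2 h'))]
  rw [ht, ht]
  unfold tw
  simp only [t1, t2, t3, t4, t5, t6, t7, t8, Dir.mt]
  cases h1 : o .E <;> cases h2 : o .N <;> cases h3 : o .W <;> cases h4 : o .S <;>
    simp [← ph_add, c4]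
  all_goals ring_nf

section net
variable {τ : Type*} [DecidableEq τ] (T : Finset τ) (g : Half τ → Half τ)

/-- the half edges of the region -/
abbrev hs (T : Finset τ) : Finset (Half τ) := T ×ˢ (Finset.univ : Finset Dir)

omit [DecidableEq τ] in
lemma mem_hs {T : Finset τ} {x : Half τ} : x ∈ hs T ↔ x.1 ∈ T := by
  simp [hs]

lemma mate_hs {T : Finset τ} {x : Half τ} (ω : Finset τ) (hx : x ∈ hs T) : mate ω x ∈ hs T :=
  mem_hs.2 (mem_hs.1 hx : x.1 ∈ T)

/-- glued sides are oriented consistently -/
def GOri (T : Finset τ) (g : Half τ → Half τ) (O : Finset (Half τ)) : Prop :=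
  ∀ x ∈ hs T, g x ≠ x → (g x ∈ O ↔ x ∉ O)

open Classical in
/-- the partition function of the network -/
def net (K : ℝ) (F : Half τ → Bool → ℂ) : ℂ :=
  ∑ O ∈ (hs T).powerset with GOri T g O,
    (∏ t ∈ T, tw K (fun d => decide ((t, d) ∈ O))) * ∏ x ∈ hs T, F x (decide (x ∈ O))

theorem net_neg (K : ℝ) (F : Half τ → Bool → ℂ) : net T g (-K) F = net T g K F := by
  unfold net
  simp only [tw_neg]

/-- turning of the arc of the configuration `ω` which leaves through `x` -/
def tr (ω : Finset τ) (x : Half τ) : ℤ := Dir.tt (decide (x.1 ∈ ω)) x.2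

/-- the factor of a half edge, including the turning of its arc -/
def EF (K : ℝ) (F : Half τ → Bool → ℂ) (ω : Finset τ) (x : Half τ) (b : Bool) : ℂ :=
  ph K (sgn b * tr ω x) * F x b

lemma tr_mate (ω : Finset τ) (x : Half τ) : tr ω (mate ω x) = -tr ω x := Dir.tt_mt _ _

/-- the strands of the region -/
def strands (T : Finset τ) (g : Half τ → Half τ) (ω : Finset τ) : Finset (St (mate ω) g) := by
  classical
  exact (hs T).image (st (mate ω) g)

variable {T g}

/-- **expansion over the strands** -/
theorem net_eq (hG : Glu T g) (K : ℝ) (F : Half τ → Bool → ℂ) (s : Finset τ → Half τ → Bool)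
    (hs' : ∀ ω, Ori (mate ω) g (s ω)) :
    net T g K F = (1 / 2) ^ T.card * ∑ ω ∈ T.powerset, ∏ c ∈ strands T g ω,
      sw (mate ω) g (hs T) (EF K F ω) (s ω) c := by
  classical
  have e1 : ∀ ω : Finset τ, ∏ c ∈ strands T g ω, sw (mate ω) g (hs T) (EF K F ω) (s ω) c =
      ∑ O ∈ (hs T).powerset with OriOn (mate ω) g (hs T) O, ∏ x ∈ hs T, EF K F ω x (decide (x ∈ O)) := by
    intro ω
    have := sum_ori (m := mate ω) (hs T) (fun x hx => mate_hs ω hx)
      (fun x hx => mem_hs.2 (hG.mem x (mem_hs.1 hx)))
      (fun x _ => ⟨(hs' ω).1 x, (hs' ω).2 x⟩) (hG.two ω) (EF K F ω)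
    unfold strands
    rw [← this]
    refine Finset.sum_congr rfl fun O _ => Finset.prod_congr rfl fun x _ => ?_
    congr 1
    exact decide_eq_decide.2 Iff.rfl
  simp only [e1]
  have e2 : ∀ O : Finset (Half τ), ∏ t ∈ T, tw K (fun d => decide ((t, d) ∈ O)) =
      (1 / 2) ^ T.card * ∑ ω ∈ T.powerset, ∏ t ∈ T, tb K (fun d => decide ((t, d) ∈ O)) (decide (t ∈ ω)) := by
    intro O
    have e3 : ∀ ω ∈ T.powerset, ∏ t ∈ T, tb K (fun d => decide ((t, d) ∈ O)) (decide (t ∈ ω)) =
        (∏ t ∈ ω, tb K (fun d => decide ((t, d) ∈ O)) true) *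
          ∏ t ∈ T \ ω, tb K (fun d => decide ((t, d) ∈ O)) false := by
      intro ω hω
      rw [← Finset.prod_sdiff (Finset.mem_powerset.1 hω), mul_comm]
      congr 1
      · refine Finset.prod_congr rfl fun t ht => ?_
        rw [decide_eq_true ht]
      · refine Finset.prod_congr rfl fun t ht => ?_
        rw [decide_eq_false (Finset.mem_sdiff.1 ht).2]
    rw [Finset.sum_congr rfl e3, ← Finset.prod_add, Finset.prod_congr rfl (fun t _ => tw_eq K _),
      Finset.prod_mul_distrib, Finset.prod_const]
  have e4 : ∀ (O : Finset (Half τ)) (ω : Finset τ),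
      ∏ t ∈ T, tb K (fun d => decide ((t, d) ∈ O)) (decide (t ∈ ω)) =
        if ∀ x ∈ hs T, (mate ω x ∈ O ↔ x ∉ O) then
          ∏ x ∈ hs T, ph K (sgn (decide (x ∈ O)) * tr ω x) else 0 := by
    intro O ω
    by_cases h1 : ∀ x ∈ hs T, (mate ω x ∈ O ↔ x ∉ O)
    · rw [if_pos h1, Finset.prod_product]
      refine Finset.prod_congr rfl fun t ht => ?_
      unfold tb
      rw [if_pos]
      · rfl
      · intro d
        rw [← decide_not]
        exact decide_eq_decide.2 (h1 (t, d) (mem_hs.2 ht))
    · rw [if_neg h1]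
      push Not at h1
      obtain ⟨x, hx, h2⟩ := h1
      refine Finset.prod_eq_zero (mem_hs.1 hx) ?_
      unfold tb
      rw [if_neg]
      intro h3
      have h4 := h3 x.2
      rw [← decide_not] at h4
      have h5 := decide_eq_decide.1 h4
      have h6 : mate ω x = (x.1, Dir.mt (decide (x.1 ∈ ω)) x.2) := rfl
      rw [← h6] at h5
      tauto
  unfold net
  simp only [e2, e4]
  rw [Finset.mul_sum]
  simp only [Finset.mul_sum, Finset.sum_mul]
  rw [Finset.sum_comm]
  refine Finset.sum_congr rfl fun ω _ => ?_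
  rw [Finset.sum_filter, Finset.sum_filter]
  refine Finset.sum_congr rfl fun O _ => ?_
  by_cases h1 : GOri T g O
  · rw [if_pos h1]
    by_cases h2 : ∀ x ∈ hs T, (mate ω x ∈ O ↔ x ∉ O)
    · rw [if_pos h2, if_pos, mul_assoc, ← Finset.prod_mul_distrib]
      · rfl
      · exact fun x hx => ⟨h2 x hx, h1 x hx⟩
    · rw [if_neg h2, if_neg]
      · ring
      · exact fun h3 => h2 fun x hx => (h3 x hx).1
  · rw [if_neg h1, if_neg]
    exact fun h3 => h1 fun x hx => (h3 x hx).2

end net

end

end Full
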