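import Pool.Agent.Full.Def.Two

/-!
# Sums over arrows on strands

`V` is a finite set of half edges, `m` the pairing inside the tiles, `g` the gluing.  A consistent
configuration is a set `o` of half edges (the arrow leaves the tile) such that exactly one of `x`,
`m x` is in `o`, and exactly one of `x`, `g x` if `x` is glued.  The sum over the consistent
configurations of a product of local factors is the product over the strands and loops of the sum of
two terms, one for each orientation.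
-/

set_option autoImplicit false

namespace Full.Net
open Finset Function

variable {α : Type*} [DecidableEq α] {R : Type*} [CommSemiring R]

/-- arrows on `V`, opposite on the two sides of a pair of `g` -/
def Cons (V : Finset α) (g : α → α) : Finset (Finset α) :=
  V.powerset.filter fun o => ∀ x ∈ V, g x ≠ x → (g x ∈ o ↔ x ∉ o)

/-- arrows along the strands of `m`, `g` -/
def Cons2 (V : Finset α) (m g : α → α) : Finset (Finset α) :=
  V.powerset.filter fun o => (∀ x ∈ V, (m x ∈ o ↔ x ∉ o)) ∧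
    ∀ x ∈ V, g x ≠ x → (g x ∈ o ↔ x ∉ o)

/-- product of the local factors -/
def wt (V : Finset α) (f : α → Bool → R) (o : Finset α) : R := ∏ x ∈ V, f x (decide (x ∈ o))

/-- the sum over the consistent configurations -/
def Zs (V : Finset α) (m g : α → α) (f : α → Bool → R) : R := ∑ o ∈ Cons2 V m g, wt V f o

lemma mem_Cons {V : Finset α} {g : α → α} {o : Finset α} : o ∈ Cons V g ↔
    o ⊆ V ∧ ∀ x ∈ V, g x ≠ x → (g x ∈ o ↔ x ∉ o) := by
  unfold Cons
  rw [mem_filter, mem_powerset]

lemma mem_Cons2 {V : Finset α} {m g : α → α} {o : Finset α} : o ∈ Cons2 V m g ↔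
    o ⊆ V ∧ (∀ x ∈ V, (m x ∈ o ↔ x ∉ o)) ∧ ∀ x ∈ V, g x ≠ x → (g x ∈ o ↔ x ∉ o) := by
  unfold Cons2
  rw [mem_filter, mem_powerset]

lemma Cons2_eq (V : Finset α) (m g : α → α) :
    Cons2 V m g = (Cons V g).filter fun o => ∀ x ∈ V, (m x ∈ o ↔ x ∉ o) := by
  ext o
  rw [mem_filter, mem_Cons, mem_Cons2]
  tauto

lemma wt_congr {V : Finset α} {f f' : α → Bool → R} {o o' : Finset α}
    (h : ∀ x ∈ V, f' x (decide (x ∈ o')) = f x (decide (x ∈ o))) : wt V f' o' = wt V f o :=
  prod_congr rfl h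

lemma Zs_congr {V : Finset α} {m g : α → α} {f f' : α → Bool → R}
    (h : ∀ x ∈ V, ∀ b, f' x b = f x b) : Zs V m g f' = Zs V m g f :=
  sum_congr rfl fun _ _ => prod_congr rfl fun x hx => h x hx _

/-- `A` is closed under `f` -/
def Clo (A : Finset α) (f : α → α) : Prop := ∀ x ∈ A, f x ∈ A

/-- two separate pieces -/
theorem Zs_union {A B : Finset α} (hAB : Disjoint A B) {m g : α → α}
    (hAm : Clo A m) (hAg : Clo A g) (hBm : Clo B m) (hBg : Clo B g) (f : α → Bool → R) :
    Zs (A ∪ B) m g f = Zs A m g f * Zs B m g f := by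
  have hd : ∀ x ∈ A, x ∉ B := fun x hx hx' => (Finset.disjoint_left.1 hAB) hx hx'
  have hd' : ∀ x ∈ B, x ∉ A := fun x hx hx' => (Finset.disjoint_left.1 hAB) hx' hx
  unfold Zs
  rw [sum_mul_sum, ← sum_product']
  symm
  refine sum_bij' (fun p _ => p.1 ∪ p.2) (fun o _ => (o ∩ A, o ∩ B)) ?_ ?_ ?_ ?_ ?_
  · rintro ⟨o, o'⟩ h
    rw [mem_product, mem_Cons2, mem_Cons2] at h
    obtain ⟨⟨h1, h2, h3⟩, h4, h5, h6⟩ := h
    simp only at h1 h2 h3 h4 h5 h6
    rw [mem_Cons2]
    have k1 : ∀ x ∈ A, (x ∈ o ∪ o' ↔ x ∈ o) := fun x hx => by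
      rw [mem_union]
      exact ⟨fun h => h.resolve_right fun h => hd x hx (h4 h), Or.inl⟩
    have k2 : ∀ x ∈ B, (x ∈ o ∪ o' ↔ x ∈ o') := fun x hx => by
      rw [mem_union]
      exact ⟨fun h => h.resolve_left fun h => hd' x hx (h1 h), Or.inr⟩
    refine ⟨union_subset_union h1 h4, ?_, ?_⟩
    · intro x hx
      rcases mem_union.1 hx with hx | hx
      · rw [k1 _ (hAm x hx), k1 _ hx]; exact h2 x hx
      · rw [k2 _ (hBm x hx), k2 _ hx]; exact h5 x hx
    · intro x hx hne
      rcases mem_union.1 hx with hx | hx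
      · rw [k1 _ (hAg x hx), k1 _ hx]; exact h3 x hx hne
      · rw [k2 _ (hBg x hx), k2 _ hx]; exact h6 x hx hne
  · intro o h
    rw [mem_Cons2] at h
    obtain ⟨h1, h2, h3⟩ := h
    rw [mem_product, mem_Cons2, mem_Cons2]
    refine ⟨⟨inter_subset_right, fun x hx => ?_, fun x hx hne => ?_⟩,
      ⟨inter_subset_right, fun x hx => ?_, fun x hx hne => ?_⟩⟩
    · simp only [mem_inter, hx, hAm x hx, and_true]; exact h2 x (mem_union_left _ hx)
    · simp only [mem_inter, hx, hAg x hx, and_true]; exact h3 x (mem_union_left _ hx) hne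
    · simp only [mem_inter, hx, hBm x hx, and_true]; exact h2 x (mem_union_right _ hx)
    · simp only [mem_inter, hx, hBg x hx, and_true]; exact h3 x (mem_union_right _ hx) hne
  · rintro ⟨o, o'⟩ h
    rw [mem_product, mem_Cons2, mem_Cons2] at h
    obtain ⟨⟨h1, -, -⟩, h4, -, -⟩ := h
    simp only at h1 h4
    refine Prod.ext ?_ ?_
    · ext x
      simp only [mem_inter, mem_union]
      exact ⟨fun h => h.1.resolve_right fun h' => hd x h.2 (h4 h'), fun h => ⟨Or.inl h, h1 h⟩⟩
    · ext x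
      simp only [mem_inter, mem_union]
      exact ⟨fun h => h.1.resolve_left fun h' => hd' x h.2 (h1 h'), fun h => ⟨Or.inr h, h4 h⟩⟩
  · intro o h
    rw [mem_Cons2] at h
    show o ∩ A ∪ o ∩ B = o
    rw [← inter_union_distrib_left]
    exact inter_eq_left.2 h.1
  · rintro ⟨o, o'⟩ h
    rw [mem_product, mem_Cons2, mem_Cons2] at h
    obtain ⟨⟨h1, -, -⟩, h4, -, -⟩ := h
    simp only at h1 h4
    show wt A f o * wt B f o' = wt (A ∪ B) f (o ∪ o')
    unfold wt
    rw [prod_union hAB]
    congr 1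
    · refine prod_congr rfl fun x hx => ?_
      congr 1
      rw [decide_eq_decide, mem_union]
      exact ⟨Or.inl, fun h => h.resolve_right fun h => hd x hx (h4 h)⟩
    · refine prod_congr rfl fun x hx => ?_
      congr 1
      rw [decide_eq_decide, mem_union]
      exact ⟨Or.inr, fun h => h.resolve_left fun h => hd' x hx (h1 h)⟩

@[simp] lemma Zs_empty (m g : α → α) (f : α → Bool → R) : Zs ∅ m g f = 1 := by
  unfold Zs Cons2 wt
  rw [powerset_empty, filter_singleton, if_pos (by simp)]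
  simp

open Classical in
/-- the half edges of the strand of `x` -/
noncomputable def cls (V : Finset α) (m g : α → α) (x : α) : Finset α :=
  V.filter fun y => Conn m g x y

/-- the strands and loops -/
noncomputable def comps (V : Finset α) (m g : α → α) : Finset (Finset α) := V.image (cls V m g)

section comps
variable {V : Finset α} {m g : α → α}

omit [DecidableEq α] in
lemma mem_cls {x y : α} : y ∈ cls V m g x ↔ y ∈ V ∧ Conn m g x y := by
  classical
  unfold cls
  rw [mem_filter]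

lemma cls_subset (x : α) : cls V m g x ⊆ V := fun _ h => (mem_cls.1 h).1

lemma self_mem_cls {x : α} (hx : x ∈ V) : x ∈ cls V m g x := mem_cls.2 ⟨hx, Conn.refl _⟩

lemma cls_clo_m (hV : Clo V m) (x : α) : Clo (cls V m g x) m := fun y hy =>
  mem_cls.2 ⟨hV y (mem_cls.1 hy).1, (mem_cls.1 hy).2.trans (Conn.m_step y)⟩

lemma cls_clo_g (hV : Clo V g) (x : α) : Clo (cls V m g x) g := fun y hy =>
  mem_cls.2 ⟨hV y (mem_cls.1 hy).1, (mem_cls.1 hy).2.trans (Conn.g_step y)⟩

lemma sdiff_clo_m (h : Two m g) (hV : Clo V m) (x : α) : Clo (V \ cls V m g x) m := by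
  intro y hy
  rw [mem_sdiff] at hy ⊢
  refine ⟨hV y hy.1, fun h1 => hy.2 ?_⟩
  have h2 := cls_clo_m hV x _ h1
  rwa [h.m_inv] at h2

lemma sdiff_clo_g (h : Two m g) (hV : Clo V g) (x : α) : Clo (V \ cls V m g x) g := by
  intro y hy
  rw [mem_sdiff] at hy ⊢
  refine ⟨hV y hy.1, fun h1 => hy.2 ?_⟩
  have h2 := cls_clo_g hV x _ h1
  rwa [h.g_inv] at h2

/-- the strand of a half edge is the same in a closed subset -/
lemma cls_sdiff (h : Two m g) {x y : α} (hy : y ∈ V \ cls V m g x) :
    cls (V \ cls V m g x) m g y = cls V m g y := by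
  ext z
  rw [mem_cls, mem_cls, mem_sdiff]
  constructor
  · rintro ⟨⟨h1, -⟩, h2⟩
    exact ⟨h1, h2⟩
  · rintro ⟨h1, h2⟩
    refine ⟨⟨h1, fun h3 => ?_⟩, h2⟩
    rw [mem_sdiff] at hy
    exact hy.2 (mem_cls.2 ⟨hy.1, (mem_cls.1 h3).2.trans (h.symm h2)⟩)

/-- two half edges of the same strand have the same strand -/
lemma cls_eq (h : Two m g) {x y : α} (hy : y ∈ cls V m g x) : cls V m g y = cls V m g x := by
  ext z
  rw [mem_cls, mem_cls]
  have h1 := (mem_cls.1 hy).2
  exact ⟨fun h2 => ⟨h2.1, h1.trans h2.2⟩, fun h2 => ⟨h2.1, (h.symm h1).trans h2.2⟩⟩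

lemma comps_eq_insert (h : Two m g) {x : α} (hx : x ∈ V) :
    comps V m g = insert (cls V m g x) (comps (V \ cls V m g x) m g) := by
  ext C
  unfold comps
  rw [mem_insert, mem_image, mem_image]
  constructor
  · rintro ⟨y, hy, rfl⟩
    by_cases h1 : y ∈ cls V m g x
    · exact Or.inl (cls_eq h h1)
    · exact Or.inr ⟨y, mem_sdiff.2 ⟨hy, h1⟩, cls_sdiff h (mem_sdiff.2 ⟨hy, h1⟩)⟩
  · rintro (rfl | ⟨y, hy, rfl⟩)
    · exact ⟨x, hx, rfl⟩
    · exact ⟨y, (mem_sdiff.1 hy).1, (cls_sdiff h hy).symm⟩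

lemma cls_notMem (x : α) (hx : x ∈ V) : cls V m g x ∉ comps (V \ cls V m g x) m g := by
  unfold comps
  rw [mem_image]
  rintro ⟨y, hy, h1⟩
  have h2 : x ∈ cls (V \ cls V m g x) m g y := by rw [h1]; exact self_mem_cls hx
  exact (mem_sdiff.1 (cls_subset y h2)).2 (self_mem_cls hx)

/-- **the sum over the arrows is the product over the strands and loops** -/
theorem Zs_eq_prod (h : Two m g) (f : α → Bool → R) (V : Finset α) (hm : Clo V m)
    (hg : Clo V g) : Zs V m g f = ∏ C ∈ comps V m g, Zs C m g f := by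
  induction V using Finset.strongInduction with
  | H V ih =>
    rcases V.eq_empty_or_nonempty with rfl | ⟨x, hx⟩
    · simp [comps]
    · have h1 : V \ cls V m g x ⊂ V := by
        refine ⟨sdiff_subset, fun h2 => ?_⟩
        exact (mem_sdiff.1 (h2 hx)).2 (self_mem_cls hx)
      have h2 := ih _ h1 (sdiff_clo_m h hm x) (sdiff_clo_g h hg x)
      rw [comps_eq_insert h hx, prod_insert (cls_notMem x hx), ← h2, ← Zs_union disjoint_sdiff
        (cls_clo_m hm x) (cls_clo_g hg x) (sdiff_clo_m h hm x) (sdiff_clo_g h hg x),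
        union_sdiff_of_subset (cls_subset x)]

/-- product over the strands, for functions of the half edges -/
theorem prod_comps (h : Two m g) (V : Finset α) (F : α → R) :
    ∏ x ∈ V, F x = ∏ C ∈ comps V m g, ∏ x ∈ C, F x := by
  induction V using Finset.strongInduction with
  | H V ih =>
    rcases V.eq_empty_or_nonempty with rfl | ⟨x, hx⟩
    · simp [comps]
    · have h1 : V \ cls V m g x ⊂ V := by
        refine ⟨sdiff_subset, fun h2 => ?_⟩
        exact (mem_sdiff.1 (h2 hx)).2 (self_mem_cls hx)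
      rw [comps_eq_insert h hx, prod_insert (cls_notMem x hx), ← ih _ h1, ← prod_union disjoint_sdiff,
        union_sdiff_of_subset (cls_subset x)]

end comps

/-! ### one strand -/

section one
variable {m g : α → α}

/-- a connected piece has exactly two consistent configurations -/
theorem Zs_conn (h : Two m g) {C : Finset α} {x : α} (hx : x ∈ C) (hm : Clo C m) (hg : Clo C g)
    (hc : ∀ y ∈ C, Conn m g x y) {o : Finset α} (ho : o ∈ Cons2 C m g) (f : α → Bool → R) :
    Zs C m g f = wt C f o + wt C f (C \ o) := by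
  have hpath : ∀ {y : α}, Conn m g x y → ∀ {o₁ o₂ : Finset α}, o₁ ∈ Cons2 C m g →
      o₂ ∈ Cons2 C m g → (x ∈ o₁ ↔ x ∈ o₂) → y ∈ C ∧ (y ∈ o₁ ↔ y ∈ o₂) := by
    intro y hy o₁ o₂ h1 h2 hxx
    rw [mem_Cons2] at h1 h2
    induction hy with
    | refl => exact ⟨hx, hxx⟩
    | @tail b c _ h4 ih =>
      obtain ⟨hb, ihb⟩ := ih
      rcases h4 with rfl | rfl
      · refine ⟨hm b hb, ?_⟩
        rw [h1.2.1 b hb, h2.2.1 b hb, ihb]
      · by_cases hne : g b = b
        · rw [hne]; exact ⟨hb, ihb⟩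
        · refine ⟨hg b hb, ?_⟩
          rw [h1.2.2 b hb hne, h2.2.2 b hb hne, ihb]
  have heq : ∀ {o₁ o₂ : Finset α}, o₁ ∈ Cons2 C m g → o₂ ∈ Cons2 C m g →
      (x ∈ o₁ ↔ x ∈ o₂) → o₁ = o₂ := by
    intro o₁ o₂ h1 h2 hxx
    ext y
    constructor
    · intro hy
      exact (hpath (hc y ((mem_Cons2.1 h1).1 hy)) h1 h2 hxx).2.1 hy
    · intro hy
      exact (hpath (hc y ((mem_Cons2.1 h2).1 hy)) h1 h2 hxx).2.2 hy
  have hoc : C \ o ∈ Cons2 C m g := by
    rw [mem_Cons2] at ho ⊢
    refine ⟨sdiff_subset, fun y hy => ?_, fun y hy hne => ?_⟩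
    · simp only [mem_sdiff, hm y hy, hy, true_and, ho.2.1 y hy]
    · simp only [mem_sdiff, hg y hy, hy, true_and, ho.2.2 y hy hne]
  have hne : o ≠ C \ o := by
    intro h1
    by_cases hxo : x ∈ o
    · have := h1 ▸ hxo
      exact (mem_sdiff.1 this).2 hxo
    · have : x ∈ C \ o := mem_sdiff.2 ⟨hx, hxo⟩
      exact hxo (h1.symm ▸ this)
  have hC : Cons2 C m g = {o, C \ o} := by
    ext o'
    rw [mem_insert, mem_singleton]
    constructor
    · intro h'
      by_cases hxo : x ∈ o' ↔ x ∈ o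
      · exact Or.inl (heq h' ho hxo)
      · right
        refine heq h' hoc ?_
        rw [mem_sdiff]
        constructor
        · intro h1
          exact ⟨hx, fun h2 => hxo ⟨fun _ => h2, fun _ => h1⟩⟩
        · rintro ⟨-, h2⟩
          by_contra h1
          exact hxo ⟨fun h3 => absurd h3 h1, fun h3 => absurd h3 h2⟩
    · rintro (rfl | rfl)
      · exact ho
      · exact hoc
  unfold Zs
  rw [hC, sum_insert (by rwa [mem_singleton]), sum_singleton]

/-- the product of the factors along `n` steps of the walker which starts at `x` (it enters the first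
tile through `x`) -/
def amp (m g : α → α) (f : α → Bool → R) (n : ℕ) (x : α) : R :=
  ∏ k ∈ range n, f ((g ∘ m)^[k] x) false * f (m ((g ∘ m)^[k] x)) true

/-- the product of the factors along the reversed walk -/
def ampr (m g : α → α) (f : α → Bool → R) (n : ℕ) (x : α) : R :=
  ∏ k ∈ range n, f ((g ∘ m)^[k] x) true * f (m ((g ∘ m)^[k] x)) false

/-- a strand or a loop which is run through in `n` steps -/
theorem Zs_walk (h : Two m g) {C : Finset α} {x : α} (hx : x ∈ C) (hm : Clo C m) (hg : Clo C g)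
    {n : ℕ} (hcov : ∀ y ∈ C, ∃ k < n, y = (g ∘ m)^[k] x ∨ y = m ((g ∘ m)^[k] x))
    (hin : ∀ k < n, (g ∘ m)^[k] x ∈ C)
    (hinj : ∀ j < n, ∀ k < n, (g ∘ m)^[j] x = (g ∘ m)^[k] x → j = k)
    (hdis : ∀ j < n, ∀ k < n, (g ∘ m)^[j] x ≠ m ((g ∘ m)^[k] x)) (f : α → Bool → R) :
    Zs C m g f = amp m g f n x + ampr m g f n x := by
  set T : α → α := g ∘ m with hT
  set I : Finset α := (range n).image fun k => T^[k] x with hI
  set O : Finset α := (range n).image fun k => m (T^[k] x) with hO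
  have hmI : ∀ y, y ∈ I ↔ ∃ k < n, T^[k] x = y := by
    intro y; rw [hI, mem_image]; simp only [mem_range]
  have hmO : ∀ y, y ∈ O ↔ ∃ k < n, m (T^[k] x) = y := by
    intro y; rw [hO, mem_image]; simp only [mem_range]
  have hIO : Disjoint I O := by
    rw [Finset.disjoint_left]
    intro y hy hy'
    obtain ⟨j, hj, rfl⟩ := (hmI y).1 hy
    obtain ⟨k, hk, h1⟩ := (hmO _).1 hy'
    exact hdis j hj k hk h1.symm
  have hCe : C = I ∪ O := by
    ext y
    rw [mem_union, hmI, hmO]
    constructor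
    · intro hy
      obtain ⟨k, hk, rfl | rfl⟩ := hcov y hy
      · exact Or.inl ⟨k, hk, rfl⟩
      · exact Or.inr ⟨k, hk, rfl⟩
    · rintro (⟨k, hk, rfl⟩ | ⟨k, hk, rfl⟩)
      · exact hin k hk
      · exact hm _ (hin k hk)
  have hIO' : ∀ y ∈ C, (y ∈ I ↔ y ∉ O) := by
    intro y hy
    constructor
    · intro h1 h2
      exact (Finset.disjoint_left.1 hIO) h1 h2
    · intro h1
      rw [hCe, mem_union] at hy
      exact hy.resolve_right h1
  -- the gluing exchanges entries and exits
  have hgO : ∀ y ∈ O, g y ≠ y → g y ∈ I := by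
    intro y hy hne
    obtain ⟨k, hk, rfl⟩ := (hmO y).1 hy
    by_contra hgI
    have h1 : g (m (T^[k] x)) ∈ C := hg _ (hm _ (hin k hk))
    rw [hCe, mem_union] at h1
    have h2 := h1.resolve_left hgI
    obtain ⟨j, hj, h3⟩ := (hmO _).1 h2
    -- `T^(k+1) x = m (T^j x)`
    have h4 : T^[k + 1] x = m (T^[j] x) := by rw [iterate_succ_apply', h3]; rfl
    by_cases hk1 : k + 1 < n
    · exact hdis _ hk1 _ hj h4
    · -- `k = n - 1`; then `m (T^j x)` is `g` of the last exit
      have hkn : k = n - 1 := by omega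
      rcases Nat.lt_or_ge j k with hjk | hjk
      · -- `T^(j+1) x = g (m (T^j x)) = g g (m T^k x) = m T^k x`
        have h5 : T^[j + 1] x = m (T^[k] x) := by
          rw [iterate_succ_apply']
          show g (m (T^[j] x)) = _
          rw [h3, h.g_inv]
        exact hdis _ (by omega) _ hk h5
      · have hjk' : j = k := by omega
        rw [hjk'] at h3
        exact hne h3.symm
  have hgI : ∀ y ∈ I, g y ≠ y → g y ∈ O := by
    intro y hy hne
    by_contra hgO'
    have hyC : y ∈ C := by rw [hCe]; exact mem_union_left _ hy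
    have h1 : g y ∈ C := hg _ hyC
    have h2 : g y ∈ I := (hIO' _ h1).2 hgO'
    obtain ⟨j, hj, rfl⟩ := (hmI y).1 hy
    obtain ⟨k, hk, h3⟩ := (hmI _).1 h2
    -- `g T^j x = T^k x`; one of them is not the start
    rcases Nat.eq_zero_or_pos j with rfl | hj0
    · rcases Nat.eq_zero_or_pos k with rfl | hk0
      · exact hne h3.symm
      · obtain ⟨k, rfl⟩ : ∃ l, k = l + 1 := ⟨k - 1, by omega⟩
        have h4 : T^[k + 1] x = g (m (T^[k] x)) := by rw [iterate_succ_apply']; rfl
        rw [h4] at h3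
        have h5 := congrArg g h3
        rw [h.g_inv, h.g_inv] at h5
        exact hdis 0 hj k (by omega) h5.symm
    · obtain ⟨j, rfl⟩ : ∃ l, j = l + 1 := ⟨j - 1, by omega⟩
      have h4 : T^[j + 1] x = g (m (T^[j] x)) := by rw [iterate_succ_apply']; rfl
      rw [h4, h.g_inv] at h3
      exact hdis k hk j (by omega) h3
  have ho : O ∈ Cons2 C m g := by
    rw [mem_Cons2]
    refine ⟨by rw [hCe]; exact subset_union_right, ?_, ?_⟩
    · intro y hy
      constructor
      · intro h1 h2
        obtain ⟨k, hk, h3⟩ := (hmO _).1 h1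
        have h4 : T^[k] x = y := by
          have := congrArg m h3
          rwa [h.m_inv, h.m_inv] at this
        exact (hIO' y hy).1 ((hmI y).2 ⟨k, hk, h4⟩) h2
      · intro h1
        obtain ⟨k, hk, h3⟩ := (hmI _).1 ((hIO' y hy).2 h1)
        exact (hmO _).2 ⟨k, hk, by rw [h3]⟩
    · intro y hy hne
      constructor
      · intro h1 h2
        exact (hIO' _ (hg y hy)).1 (hgO y h2 hne) h1
      · intro h1
        exact hgI y ((hIO' y hy).2 h1) hne
  have hconn : ∀ y ∈ C, Conn m g x y := by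
    intro y hy
    obtain ⟨k, hk, rfl | rfl⟩ := hcov y hy
    · exact Conn.iter _ _
    · exact (Conn.iter _ _).trans (Conn.m_step _)
  rw [Zs_conn h hx hm hg hconn ho f]
  have hI' : C \ O = I := by
    ext y
    rw [mem_sdiff]
    exact ⟨fun h1 => (hIO' y h1.1).2 h1.2, fun h1 => by
      have h2 : y ∈ C := by rw [hCe]; exact mem_union_left _ h1
      exact ⟨h2, (hIO' y h2).1 h1⟩⟩
  rw [hI']
  have injI : ∀ j ∈ range n, ∀ k ∈ range n, T^[j] x = T^[k] x → j = k := fun j hj k hk =>
    hinj j (mem_range.1 hj) k (mem_range.1 hk)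
  have injO : ∀ j ∈ range n, ∀ k ∈ range n, m (T^[j] x) = m (T^[k] x) → j = k := by
    intro j hj k hk h1
    refine injI j hj k hk ?_
    have := congrArg m h1
    rwa [h.m_inv, h.m_inv] at this
  have key : ∀ F : α → R, ∏ y ∈ C, F y = ∏ k ∈ range n, F (T^[k] x) * F (m (T^[k] x)) := by
    intro F
    rw [hCe, prod_union hIO, hI, hO, prod_image injI, prod_image injO, ← prod_mul_distrib]
  unfold wt amp ampr
  rw [key, key]
  congr 1
  · refine prod_congr rfl fun k hk => ?_
    have hk' := mem_range.1 hk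
    have h1 : m (T^[k] x) ∈ O := (hmO _).2 ⟨k, hk', rfl⟩
    have h2 : T^[k] x ∉ O := (hIO' _ (hin k hk')).1 ((hmI _).2 ⟨k, hk', rfl⟩)
    rw [decide_eq_false h2, decide_eq_true h1]
  · refine prod_congr rfl fun k hk => ?_
    have hk' := mem_range.1 hk
    have h1 : T^[k] x ∈ I := (hmI _).2 ⟨k, hk', rfl⟩
    have h2 : m (T^[k] x) ∉ I := fun h3 =>
      (hIO' _ (hm _ (hin k hk'))).1 h3 ((hmO _).2 ⟨k, hk', rfl⟩)
    rw [decide_eq_false h2, decide_eq_true h1]

end one

end Full.Net
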