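import Pool.Agent.Full.Def.Surf
import Pool.Agent.Full.Net.Abs

/-!
# The six vertex network on a square tiled surface

`net T g c β`: every side of every tile carries an arrow, the arrows on the two sides of a glued pair
agree.  A configuration is the set `o` of the half edges through which the arrow leaves the tile.
Weight of a tile: `1/2` if its two outgoing sides are adjacent, `c` if they are opposite, `0` if there
are not exactly two outgoing sides.  `β x b` is an arbitrary factor for every half edge (`b = true`: the
arrow leaves the tile): wall vectors, fixed arrows, seams.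

`c = cq q = (q ^ 2 + q ^ (-2)) / 2`: the tile is half the sum over its two bits of `q ^ (turn)` of the
two strands inside the tile, a left quarter turn counts `1`, a right quarter turn `-1`.
-/

set_option autoImplicit false

namespace Full.Net
open Finset Function

variable {τ : Type*}

/-- the half edges of the region -/
def hs (T : Finset τ) : Finset (Half τ) := T ×ˢ (univ : Finset Dir)

@[simp] lemma mem_hs {T : Finset τ} {x : Half τ} : x ∈ hs T ↔ x.1 ∈ T := by
  unfold hs
  rw [mem_product]
  exact ⟨fun h => h.1, fun h => ⟨h, mem_univ _⟩⟩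

/-- weight of a tile; `p d`: the arrow on the side `d` leaves the tile -/
noncomputable def tw (c : ℂ) (p : Dir → Bool) : ℂ :=
  if p .E ≠ p .W ∧ p .N ≠ p .S then 1 / 2
  else if p .E = p .W ∧ p .N = p .S ∧ p .E ≠ p .N then c else 0

/-- the weight of the tile whose outgoing sides are opposite -/
noncomputable def cq (q : ℂ) : ℂ := (q ^ (2 : ℤ) + q ^ (-2 : ℤ)) / 2

lemma cq_inv (q : ℂ) : cq q⁻¹ = cq q := by
  unfold cq
  rw [inv_zpow', inv_zpow', add_comm]
  norm_num

section
variable [DecidableEq τ]

/-- the six vertex network of the region `T` with the gluing `g` -/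
noncomputable def net (T : Finset τ) (g : Half τ → Half τ) (c : ℂ) (β : Half τ → Bool → ℂ) : ℂ :=
  ∑ o ∈ Cons (hs T) g, (∏ t ∈ T, tw c fun d => decide ((t, d) ∈ o)) * wt (hs T) β o

/-- the quarter turn of the strand which enters the tile through `x`: `1` = left, `-1` = right -/
def qt (ω : Finset τ) (x : Half τ) : ℤ := if mate ω x = rho x then -1 else 1

/-- the turning of the walker which starts at `x`, in `n` steps -/
def turn (ω : Finset τ) (g : Half τ → Half τ) (n : ℕ) (x : Half τ) : ℤ :=
  ∑ k ∈ range n, qt ω ((g ∘ mate ω)^[k] x)

lemma rho_rho_ne (x : Half τ) : rho (rho x) ≠ x := by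
  obtain ⟨t, d⟩ := x
  intro h
  have h1 : d.ccw.ccw = d := congrArg Prod.snd h
  rw [Dir.ccw_ccw] at h1
  exact Dir.opp_ne d h1

lemma qt_mate (ω : Finset τ) (x : Half τ) : qt ω (mate ω x) = -qt ω x := by
  unfold qt
  rw [mate_mate]
  rcases mate_cases ω x with h | h
  · rw [if_pos h, if_neg, neg_neg]
    rw [h]
    exact (rho_rho_ne x).symm
  · rw [if_pos h.symm, if_neg]
    intro h1
    rw [h1] at h
    exact rho_rho_ne x h

/-- the factors of the half edges together with the quarter turns -/
noncomputable def fq (q : ℂ) (ω : Finset τ) (β : Half τ → Bool → ℂ) (x : Half τ) (b : Bool) : ℂ :=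
  β x b * if b = true then 1 else q ^ qt ω x

end

end Full.Net
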