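import Pool.Agent.Full.Net.Net
import Pool.Agent.Full.Net.Defs

/-!
# The two definitions of the six vertex network agree

`Full.net T g K F = Full.Net.net T g (cos (4 K)) F`.
-/

set_option autoImplicit false

namespace Full
open Finset Function

lemma tw_same (K : ℝ) (o : Dir → Bool) : tw K o = Net.tw (Complex.cos (4 * K)) o := by
  unfold tw Net.tw
  cases h1 : o .E <;> cases h2 : o .N <;> cases h3 : o .W <;> cases h4 : o .S <;> simp

lemma hs_same {τ : Type*} (T : Finset τ) : Net.hs T = hs T := rfl

/-- the two definitions of the network agree -/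
theorem net_same {τ : Type*} [DecidableEq τ] (T : Finset τ) (g : Half τ → Half τ) (K : ℝ)
    (F : Half τ → Bool → ℂ) : net T g K F = Net.net T g (Complex.cos (4 * K)) F := by
  classical
  unfold net Net.net Net.wt
  refine sum_congr ?_ fun O _ => ?_
  · ext O
    rw [mem_filter, mem_powerset, Net.mem_Cons]
    exact Iff.rfl
  · congr 1
    exact prod_congr rfl fun t _ => tw_same _ _

/-- the isotropic point -/
lemma cos_iso : Complex.cos (4 * ((Real.pi / 24 : ℝ) : ℂ)) = ((Real.sqrt 3 / 2 : ℝ) : ℂ) := by
  have h : (4 * ((Real.pi / 24 : ℝ) : ℂ)) = ((Real.pi / 6 : ℝ) : ℂ) := by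
    push_cast
    ring
  rw [h, ← Complex.ofReal_cos, Real.cos_pi_div_six]

end Full
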