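import Pool.Agent.Full.Net.Abs

/-!
# Cutting a network

The half edges are divided into two parts.  The sum over the consistent arrows is the sum over the
arrows `s` on the cut pairs of the product of the two partial sums with these arrows.
-/

set_option autoImplicit false

namespace Full.Net
open Finset Function

variable {α : Type*} [DecidableEq α] {R : Type*} [CommSemiring R]

/-- the gluing restricted to `V`: the pairs which leave `V` are unglued -/
def res (V : Finset α) (g : α → α) (x : α) : α := if x ∈ V ∧ g x ∈ V then g x else x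

lemma res_of_mem {V : Finset α} {g : α → α} {x : α} (h : x ∈ V) (h' : g x ∈ V) :
    res V g x = g x := if_pos ⟨h, h'⟩

lemma res_of_notMem {V : Finset α} {g : α → α} {x : α} (h' : g x ∉ V) :
    res V g x = x := if_neg fun h => h' h.2

lemma res_res {V W : Finset α} (h : W ⊆ V) (g : α → α) : res W (res V g) = res W g := by
  funext x
  by_cases hx : x ∈ W
  · by_cases h1 : g x ∈ V
    · have e : res V g x = g x := res_of_mem (h hx) h1
      by_cases h2 : g x ∈ W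
      · rw [res_of_mem hx (by rwa [e]), e, res_of_mem hx h2]
      · rw [res_of_notMem (by rwa [e]), res_of_notMem h2]
    · have e : res V g x = x := res_of_notMem h1
      rw [res_of_mem hx (by rwa [e]), e, res_of_notMem fun h2 => h1 (h h2)]
  · unfold res
    rw [if_neg fun h => hx h.1, if_neg fun h => hx h.1]

/-- consistent arrows with given values on the half edges `e i` -/
def ConsP {ι : Type*} [Fintype ι] (V : Finset α) (g : α → α) (e : ι → α) (s : ι → Bool) :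
    Finset (Finset α) :=
  (Cons V g).filter fun o => ∀ i, (e i ∈ o ↔ s i = true)

lemma mem_ConsP {ι : Type*} [Fintype ι] {V : Finset α} {g : α → α} {e : ι → α} {s : ι → Bool}
    {o : Finset α} : o ∈ ConsP V g e s ↔
    (o ⊆ V ∧ ∀ x ∈ V, g x ≠ x → (g x ∈ o ↔ x ∉ o)) ∧ ∀ i, (e i ∈ o ↔ s i = true) := by
  unfold ConsP
  rw [mem_filter, mem_Cons]

/-- a cut: `V₁`, `V₂` are disjoint, the cut pairs are `e₁ i`, `e₂ i` -/
structure Cut {ι : Type*} (V₁ V₂ : Finset α) (g : α → α) (e₁ e₂ : ι → α) : Prop where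
  disj : Disjoint V₁ V₂
  inv : ∀ x, g (g x) = x
  clo : ∀ x ∈ V₁ ∪ V₂, g x ∈ V₁ ∪ V₂
  mem₁ : ∀ i, e₁ i ∈ V₁
  mem₂ : ∀ i, e₂ i ∈ V₂
  glue : ∀ i, g (e₁ i) = e₂ i
  all : ∀ x ∈ V₁, g x ∈ V₂ → ∃ i, e₁ i = x

/-- **cutting a network** -/
theorem Cut.sum_eq {ι : Type*} [Fintype ι] [DecidableEq ι] {V₁ V₂ : Finset α} {g : α → α}
    {e₁ e₂ : ι → α} (h : Cut V₁ V₂ g e₁ e₂) (A B : Finset α → R) :
    ∑ o ∈ Cons (V₁ ∪ V₂) g, A (o ∩ V₁) * B (o ∩ V₂) =
      ∑ s : ι → Bool, (∑ o ∈ ConsP V₁ (res V₁ g) e₁ s, A o) *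
        ∑ o ∈ ConsP V₂ (res V₂ g) e₂ (fun i => !s i), B o := by
  have hd : ∀ x ∈ V₁, x ∉ V₂ := fun x hx hx' => (Finset.disjoint_left.1 h.disj) hx hx'
  have hd' : ∀ x ∈ V₂, x ∉ V₁ := fun x hx hx' => (Finset.disjoint_left.1 h.disj) hx' hx
  rw [← Finset.sum_fiberwise (Cons (V₁ ∪ V₂) g) (fun o => fun i => decide (e₁ i ∈ o))]
  refine sum_congr rfl fun s _ => ?_
  rw [sum_mul_sum, ← sum_product']
  have hne : ∀ i, g (e₁ i) ≠ e₁ i := fun i h1 => by
    rw [h.glue] at h1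
    exact hd _ (h.mem₁ i) (h1 ▸ h.mem₂ i)
  refine sum_bij' (fun o _ => (o ∩ V₁, o ∩ V₂)) (fun p _ => p.1 ∪ p.2) ?_ ?_ ?_ ?_ ?_
  · intro o ho
    rw [mem_filter, mem_Cons] at ho
    obtain ⟨⟨h1, h2⟩, h3⟩ := ho
    have h3' : ∀ i, (e₁ i ∈ o ↔ s i = true) := fun i => by
      have h4 : decide (e₁ i ∈ o) = s i := congrFun h3 i
      rw [← h4, decide_eq_true_eq]
    rw [mem_product, mem_ConsP, mem_ConsP]
    refine ⟨⟨⟨inter_subset_right, fun x hx hne => ?_⟩, fun i => ?_⟩,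
      ⟨inter_subset_right, fun x hx hne => ?_⟩, fun i => ?_⟩
    · by_cases hgx : g x ∈ V₁
      · rw [res_of_mem hx hgx] at hne ⊢
        simp only [mem_inter, hx, hgx, and_true]
        exact h2 x (mem_union_left _ hx) hne
      · exact absurd (res_of_notMem hgx) hne
    · simp only [mem_inter, h.mem₁ i, and_true]
      exact h3' i
    · by_cases hgx : g x ∈ V₂
      · rw [res_of_mem hx hgx] at hne ⊢
        simp only [mem_inter, hx, hgx, and_true]
        exact h2 x (mem_union_right _ hx) hne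
      · exact absurd (res_of_notMem hgx) hne
    · simp only [mem_inter, h.mem₂ i, and_true]
      have h4 := h2 (e₁ i) (mem_union_left _ (h.mem₁ i)) (hne i)
      rw [h.glue] at h4
      rw [h4, h3' i]
      cases s i <;> simp
  · rintro ⟨o, o'⟩ hp
    rw [mem_product, mem_ConsP, mem_ConsP] at hp
    obtain ⟨⟨⟨h1, h2⟩, h3⟩, ⟨h4, h5⟩, h6⟩ := hp
    simp only at h1 h2 h3 h4 h5 h6
    have k1 : ∀ x ∈ V₁, (x ∈ o ∪ o' ↔ x ∈ o) := fun x hx => by
      rw [mem_union]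
      exact ⟨fun h => h.resolve_right fun h => hd x hx (h4 h), Or.inl⟩
    have k2 : ∀ x ∈ V₂, (x ∈ o ∪ o' ↔ x ∈ o') := fun x hx => by
      rw [mem_union]
      exact ⟨fun h => h.resolve_left fun h => hd' x hx (h1 h), Or.inr⟩
    have k3 : ∀ i, (e₂ i ∈ o' ↔ e₁ i ∉ o) := fun i => by
      rw [h3 i, h6 i]
      cases s i <;> simp
    rw [mem_filter, mem_Cons]
    refine ⟨⟨union_subset_union h1 h4, fun x hx hne' => ?_⟩, ?_⟩
    · rcases mem_union.1 hx with hx1 | hx2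
      · by_cases hgx : g x ∈ V₁
        · rw [k1 _ hgx, k1 _ hx1]
          have h7 := h2 x hx1
          rw [res_of_mem hx1 hgx] at h7
          exact h7 hne'
        · have hgx2 : g x ∈ V₂ := (mem_union.1 (h.clo x hx)).resolve_left hgx
          obtain ⟨i, rfl⟩ := h.all x hx1 hgx2
          rw [k1 _ hx1, h.glue, k2 _ (h.mem₂ i)]
          exact k3 i
      · by_cases hgx : g x ∈ V₂
        · rw [k2 _ hgx, k2 _ hx2]
          have h7 := h5 x hx2
          rw [res_of_mem hx2 hgx] at h7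
          exact h7 hne'
        · have hgx1 : g x ∈ V₁ := (mem_union.1 (h.clo x hx)).resolve_right hgx
          obtain ⟨i, hi⟩ := h.all (g x) hgx1 (by rwa [h.inv])
          have hxi : x = e₂ i := by rw [← h.glue, hi, h.inv]
          subst hxi
          rw [k2 _ hx2, k1 _ hgx1, ← hi, k3 i, not_not]
    · funext i
      have h7 := k1 _ (h.mem₁ i)
      rw [h3 i] at h7
      cases hs : s i
      · rw [hs] at h7
        exact decide_eq_false fun h8 => absurd (h7.1 h8) (by simp)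
      · rw [hs] at h7
        exact decide_eq_true (h7.2 rfl)
  · intro o ho
    rw [mem_filter, mem_Cons] at ho
    show o ∩ V₁ ∪ o ∩ V₂ = o
    rw [← inter_union_distrib_left]
    exact inter_eq_left.2 ho.1.1
  · rintro ⟨o, o'⟩ hp
    rw [mem_product, mem_ConsP, mem_ConsP] at hp
    obtain ⟨⟨⟨h1, -⟩, -⟩, ⟨h4, -⟩, -⟩ := hp
    simp only at h1 h4
    refine Prod.ext ?_ ?_
    · ext x
      simp only [mem_inter, mem_union]
      exact ⟨fun h => h.1.resolve_right fun h' => hd x h.2 (h4 h'), fun h => ⟨Or.inl h, h1 h⟩⟩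
    · ext x
      simp only [mem_inter, mem_union]
      exact ⟨fun h => h.1.resolve_left fun h' => hd' x h.2 (h1 h'), fun h => ⟨Or.inr h, h4 h⟩⟩
  · intro o _
    rfl

/-- **cutting a network in which arrows are fixed already** on half edges of the first or of the second
part (`κ` enumerates the fixed half edges) -/
theorem Cut.sumP_eq {ι κ κ' : Type*} [Fintype ι] [DecidableEq ι] [Fintype κ] [Fintype κ']
    {V₁ V₂ : Finset α} {g : α → α} {e₁ e₂ : ι → α} (h : Cut V₁ V₂ g e₁ e₂) {c₁ : κ → α}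
    {c₂ : κ' → α} (hc₁ : ∀ k, c₁ k ∈ V₁) (hc₂ : ∀ k, c₂ k ∈ V₂) (t₁ : κ → Bool) (t₂ : κ' → Bool)
    (A B : Finset α → R) :
    ∑ o ∈ ConsP (V₁ ∪ V₂) g (Sum.elim c₁ c₂) (Sum.elim t₁ t₂), A (o ∩ V₁) * B (o ∩ V₂) =
      ∑ s : ι → Bool, (∑ o ∈ ConsP V₁ (res V₁ g) (Sum.elim e₁ c₁) (Sum.elim s t₁), A o) *
        ∑ o ∈ ConsP V₂ (res V₂ g) (Sum.elim e₂ c₂) (Sum.elim (fun i => !s i) t₂), B o := by
  classical
  let A' : Finset α → R := fun o => if ∀ k, (c₁ k ∈ o ↔ t₁ k = true) then A o else 0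
  let B' : Finset α → R := fun o => if ∀ k, (c₂ k ∈ o ↔ t₂ k = true) then B o else 0
  have key := h.sum_eq A' B'
  have hL : ∑ o ∈ ConsP (V₁ ∪ V₂) g (Sum.elim c₁ c₂) (Sum.elim t₁ t₂), A (o ∩ V₁) * B (o ∩ V₂) =
      ∑ o ∈ Cons (V₁ ∪ V₂) g, A' (o ∩ V₁) * B' (o ∩ V₂) := by
    unfold ConsP
    rw [sum_filter]
    refine sum_congr rfl fun o _ => ?_
    have e1 : (∀ k, (c₁ k ∈ o ∩ V₁ ↔ t₁ k = true)) ↔ ∀ k, (c₁ k ∈ o ↔ t₁ k = true) := by
      simp only [mem_inter, hc₁, and_true]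
    have e2 : (∀ k, (c₂ k ∈ o ∩ V₂ ↔ t₂ k = true)) ↔ ∀ k, (c₂ k ∈ o ↔ t₂ k = true) := by
      simp only [mem_inter, hc₂, and_true]
    have e3 : (∀ i, (Sum.elim c₁ c₂ i ∈ o ↔ Sum.elim t₁ t₂ i = true)) ↔
        (∀ k, (c₁ k ∈ o ↔ t₁ k = true)) ∧ ∀ k, (c₂ k ∈ o ↔ t₂ k = true) := by
      rw [Sum.forall]
      simp only [Sum.elim_inl, Sum.elim_inr]
    simp only [A', B', e1, e2, e3]
    by_cases h1 : ∀ k, (c₁ k ∈ o ↔ t₁ k = true)
    · by_cases h2 : ∀ k, (c₂ k ∈ o ↔ t₂ k = true)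
      · rw [if_pos ⟨h1, h2⟩, if_pos h1, if_pos h2]
      · rw [if_neg fun h => h2 h.2, if_neg h2, mul_zero]
    · rw [if_neg fun h => h1 h.1, if_neg h1, zero_mul]
  rw [hL, key]
  refine sum_congr rfl fun s _ => ?_
  congr 1
  · unfold ConsP
    rw [sum_filter, sum_filter]
    refine sum_congr rfl fun o _ => ?_
    have e3 : (∀ i, (Sum.elim e₁ c₁ i ∈ o ↔ Sum.elim s t₁ i = true)) ↔
        (∀ k, (e₁ k ∈ o ↔ s k = true)) ∧ ∀ k, (c₁ k ∈ o ↔ t₁ k = true) := by
      rw [Sum.forall]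
      simp only [Sum.elim_inl, Sum.elim_inr]
    simp only [A', e3]
    by_cases h1 : ∀ k, (e₁ k ∈ o ↔ s k = true)
    · by_cases h2 : ∀ k, (c₁ k ∈ o ↔ t₁ k = true)
      · rw [if_pos h1, if_pos h2, if_pos ⟨h1, h2⟩]
      · rw [if_pos h1, if_neg h2, if_neg fun h => h2 h.2]
    · rw [if_neg h1, if_neg fun h => h1 h.1]
  · unfold ConsP
    rw [sum_filter, sum_filter]
    refine sum_congr rfl fun o _ => ?_
    have e3 : (∀ i, (Sum.elim e₂ c₂ i ∈ o ↔ Sum.elim (fun i => !s i) t₂ i = true)) ↔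
        (∀ k, (e₂ k ∈ o ↔ (!s k) = true)) ∧ ∀ k, (c₂ k ∈ o ↔ t₂ k = true) := by
      rw [Sum.forall]
      simp only [Sum.elim_inl, Sum.elim_inr]
    simp only [B', e3]
    by_cases h1 : ∀ k, (e₂ k ∈ o ↔ (!s k) = true)
    · by_cases h2 : ∀ k, (c₂ k ∈ o ↔ t₂ k = true)
      · rw [if_pos h1, if_pos h2, if_pos ⟨h1, h2⟩]
      · rw [if_pos h1, if_neg h2, if_neg fun h => h2 h.2]
    · rw [if_neg h1, if_neg fun h => h1 h.1]

end Full.Net
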