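import Pool.Agent.Full.Net.Defs

/-!
# Expansion of the network into strands

`net_expand`: the network is the average over the bits of the tiles of the sum over the orientations of
the strands, and hence (`Zs_eq_prod`) of the product over the strands and loops.  Both `q` and `q⁻¹` are
allowed.
-/

set_option autoImplicit false

namespace Full.Net
open Finset Function

variable {τ : Type*}

/-- quarter turn, for a tile with bit `b` entered through the side `d` -/
def qd (b : Bool) (d : Dir) : ℤ := if Dir.mt b d = d.ccw then -1 else 1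

lemma bit_prod (F : Dir → ℂ) : ∏ d, F d = F .E * (F .N * (F .W * F .S)) := by
  have h : (Finset.univ : Finset Dir) = {Dir.E, Dir.N, Dir.W, Dir.S} := by decide
  rw [h, prod_insert (by decide), prod_insert (by decide), prod_insert (by decide),
    prod_singleton]

/-- the term of one bit -/
noncomputable def tb (q : ℂ) (p : Dir → Bool) (b : Bool) : ℂ :=
  if ∀ d, p (Dir.mt b d) = !p d then (1 / 2) * ∏ d, (if p d = true then 1 else q ^ qd b d) else 0

/-- **one tile** -/
theorem tw_eq {q : ℂ} (hq : q ≠ 0) (p : Dir → Bool) : tw (cq q) p = tb q p true + tb q p false := by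
  have hall : ∀ P : Dir → Prop, (∀ d, P d) ↔ (P .E ∧ P .N ∧ P .W ∧ P .S) := by
    intro P
    constructor
    · intro h; exact ⟨h _, h _, h _, h _⟩
    · rintro ⟨h1, h2, h3, h4⟩ d
      cases d <;> assumption
  have e1 : qd true .E = 1 := by decide
  have e2 : qd true .N = -1 := by decide
  have e3 : qd true .W = 1 := by decide
  have e4 : qd true .S = -1 := by decide
  have e5 : qd false .E = -1 := by decide
  have e6 : qd false .N = 1 := by decide
  have e7 : qd false .W = -1 := by decide
  have e8 : qd false .S = 1 := by decide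
  have hz1 : q ^ (-1 : ℤ) = q⁻¹ := by rw [zpow_neg_one]
  have hz2 : q ^ (2 : ℤ) = q * q := by
    rw [show (2 : ℤ) = 1 + 1 by norm_num, zpow_add₀ hq, zpow_one]
  have hz3 : q ^ (-2 : ℤ) = q⁻¹ * q⁻¹ := by
    rw [show (-2 : ℤ) = -1 + -1 by norm_num, zpow_add₀ hq, hz1]
  unfold tb tw cq
  simp only [hall, bit_prod, e1, e2, e3, e4, e5, e6, e7, e8, Dir.mt, hz1, hz2, hz3, zpow_one]
  generalize p .E = a
  generalize p .N = b
  generalize p .W = c
  generalize p .S = d
  cases a <;> cases b <;> cases c <;> cases d <;> simp <;> field_simp <;> ring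

section
variable [DecidableEq τ]

lemma qd_eq (ω : Finset τ) (x : Half τ) : qd (decide (x.1 ∈ ω)) x.2 = qt ω x := by
  unfold qd qt mate rho
  by_cases h : Dir.mt (decide (x.1 ∈ ω)) x.2 = x.2.ccw
  · rw [if_pos h, if_pos (by rw [h])]
  · rw [if_neg h, if_neg (fun h1 => h (congrArg Prod.snd h1))]

/-- **expansion into strands** -/
theorem net_expand {T : Finset τ} {g : Half τ → Half τ} {q : ℂ} (hq : q ≠ 0)
    (β : Half τ → Bool → ℂ) : net T g (cq q) β =
      ∑ ω ∈ T.powerset, (1 / 2) ^ T.card * Zs (hs T) (mate ω) g (fq q ω β) := by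
  unfold net Zs
  have h1 : ∀ o ∈ Cons (hs T) g, (∏ t ∈ T, tw (cq q) fun d => decide ((t, d) ∈ o)) *
      wt (hs T) β o = ∑ ω ∈ T.powerset, if (∀ x ∈ hs T, (mate ω x ∈ o ↔ x ∉ o)) then
        (1 / 2) ^ T.card * wt (hs T) (fq q ω β) o else 0 := by
    intro o _
    have h2 : ∀ t ∈ T, tw (cq q) (fun d => decide ((t, d) ∈ o)) =
        tb q (fun d => decide ((t, d) ∈ o)) true + tb q (fun d => decide ((t, d) ∈ o)) false :=
      fun t _ => tw_eq hq _
    rw [prod_congr rfl h2, prod_add, sum_mul]
    refine sum_congr rfl fun ω hω => ?_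
    have hω' := mem_powerset.1 hω
    have h3 : (∏ t ∈ ω, tb q (fun d => decide ((t, d) ∈ o)) true) *
        ∏ t ∈ T \ ω, tb q (fun d => decide ((t, d) ∈ o)) false =
        ∏ t ∈ T, tb q (fun d => decide ((t, d) ∈ o)) (decide (t ∈ ω)) := by
      rw [← prod_sdiff hω', mul_comm]
      congr 1
      · exact prod_congr rfl fun t ht => by rw [decide_eq_false (mem_sdiff.1 ht).2]
      · exact prod_congr rfl fun t ht => by rw [decide_eq_true ht]
    rw [h3]
    unfold tb
    rw [prod_ite_zero]
    have h4 : (∀ t ∈ T, ∀ d, decide ((t, Dir.mt (decide (t ∈ ω)) d) ∈ o) =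
        !decide ((t, d) ∈ o)) ↔ ∀ x ∈ hs T, (mate ω x ∈ o ↔ x ∉ o) := by
      constructor
      · intro h x hx
        have h5 := h x.1 (mem_hs.1 hx) x.2
        rw [← decide_not, decide_eq_decide] at h5
        exact h5
      · intro h t ht d
        rw [← decide_not, decide_eq_decide]
        exact h (t, d) (mem_hs.2 ht)
    by_cases h5 : ∀ x ∈ hs T, (mate ω x ∈ o ↔ x ∉ o)
    · rw [if_pos (h4.2 h5), if_pos h5, prod_mul_distrib, prod_const, mul_assoc]
      congr 1
      unfold wt hs
      rw [prod_product, prod_product, ← prod_mul_distrib]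
      refine prod_congr rfl fun t _ => ?_
      rw [← prod_mul_distrib]
      refine prod_congr rfl fun d _ => ?_
      have h6 : qd (decide (t ∈ ω)) d = qt ω (t, d) := qd_eq ω (t, d)
      unfold fq
      rw [h6, mul_comm]
    · rw [if_neg (fun h => h5 (h4.1 h)), if_neg h5, zero_mul]
  rw [sum_congr rfl h1, sum_comm]
  refine sum_congr rfl fun ω _ => ?_
  rw [Cons2_eq, ← sum_filter, mul_sum]

end

end Full.Net
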