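import Pool.Agent.Full.Def.Two

/-!
# Orientations of strands

For two involutions `m` (without fixed points) and `g` there is an orientation: a function `s` with
`s (m x) = !s x` and `s (g x) = !s x` for the points moved by `g`.  A sum over all orientations is a
product over the strands.
-/

set_option autoImplicit false

namespace Full
open Function Relation Finset

variable {α : Type*} {m g : α → α}

/-- `s` is an orientation of the strands: `s x = true` iff the strand leaves the tile through `x` -/
def Ori (m g : α → α) (s : α → Bool) : Prop :=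
  (∀ x, s (m x) = !s x) ∧ ∀ x, g x ≠ x → s (g x) = !s x

/-- two involutions without fixed points -/
lemma exists_ori_aux {β : Type*} {m g : β → β} (hm : Involutive m) (hg : Involutive g)
    (nm : ∀ x, m x ≠ x) (ng : ∀ x, g x ≠ x) :
    ∃ s : β → Bool, (∀ x, s (m x) = !s x) ∧ ∀ x, s (g x) = !s x := by
  classical
  let M : Equiv.Perm β := hm.toPerm
  let G : Equiv.Perm β := hg.toPerm
  let F : Equiv.Perm β := G * M
  have hM : ∀ x, M x = m x := fun x => rfl
  have hG : ∀ x, G x = g x := fun x => rfl
  have hMM : M * M = 1 := by ext x; exact hm x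
  have hGG : G * G = 1 := by ext x; exact hg x
  have hMi : M⁻¹ = M := inv_eq_of_mul_eq_one_left hMM
  have hGi : G⁻¹ = G := inv_eq_of_mul_eq_one_left hGG
  have h1 : M * F = F⁻¹ * M := by
    show M * (G * M) = (G * M)⁻¹ * M
    rw [mul_inv_rev, hMi, hGi, mul_assoc]
  have h2 : ∀ k : ℤ, M * F ^ k = F ^ (-k) * M := by
    intro k
    have : M * F ^ k * M⁻¹ = (M * F * M⁻¹) ^ k := by
      rw [conj_zpow]
    have h3 : M * F * M⁻¹ = F⁻¹ := by rw [h1, mul_assoc, mul_inv_cancel, mul_one]
    rw [h3, inv_zpow, ← zpow_neg] at this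
    rw [← this, mul_assoc, inv_mul_cancel, mul_one]
  let S := Equiv.Perm.SameCycle.setoid F
  let μ : Quotient S → Quotient S := Quotient.map M (by
    rintro x y ⟨k, hk⟩
    refine ⟨-k, ?_⟩
    have := congrArg (fun e : Equiv.Perm β => e x) (h2 k)
    simp only [Equiv.Perm.mul_apply] at this
    rw [← this, hk])
  have hμ : ∀ x, μ ⟦x⟧ = ⟦M x⟧ := fun x => rfl
  have hμμ : ∀ q, μ (μ q) = q := by
    intro q
    refine Quotient.inductionOn q fun x => ?_
    rw [hμ, hμ]
    exact congrArg _ (hm x)
  have hμn : ∀ q, μ q ≠ q := by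
    intro q
    refine Quotient.inductionOn q fun x hx => ?_
    rw [hμ] at hx
    obtain ⟨k, hk⟩ := Quotient.exact hx.symm
    -- `F^k x = M x`
    rcases Int.even_or_odd k with ⟨j, hj⟩ | ⟨j, hj⟩
    · apply nm ((F ^ j) x)
      have := congrArg (fun e : Equiv.Perm β => e x) (h2 j)
      simp only [Equiv.Perm.mul_apply] at this
      rw [← hM, this, ← hk, hj, ← Equiv.Perm.mul_apply, ← zpow_add]
      congr 2
      ring
    · apply ng (M ((F ^ j) x))
      have := congrArg (fun e : Equiv.Perm β => e x) (h2 j)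
      simp only [Equiv.Perm.mul_apply] at this
      have e1 : M ((F ^ j) x) = F ((F ^ j) x) := by
        rw [this, ← hk, hj, ← Equiv.Perm.mul_apply, ← zpow_add]
        have : F ((F ^ j) x) = (F ^ (1 + j)) x := by rw [zpow_add, zpow_one]; rfl
        rw [this]
        congr 2
        ring
      have e2 : F ((F ^ j) x) = G (M ((F ^ j) x)) := rfl
      rw [← hG, ← e2, ← e1]
  refine ⟨fun x => decide (WellOrderingRel (⟦x⟧ : Quotient S) (μ ⟦x⟧)), ?_, ?_⟩
  · intro x
    have h3 : (⟦m x⟧ : Quotient S) = μ ⟦x⟧ := rfl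
    show decide (WellOrderingRel (⟦m x⟧ : Quotient S) (μ ⟦m x⟧)) = _
    rw [h3, hμμ]
    rcases trichotomous_of (WellOrderingRel (α := Quotient S)) ⟦x⟧ (μ ⟦x⟧) with h | h | h
    · have h' := asymm h
      simp [h, h']
    · exact absurd h.symm (hμn _)
    · have h' := asymm h
      simp [h, h']
  · intro x
    have h3 : (⟦g x⟧ : Quotient S) = μ ⟦x⟧ := by
      rw [hμ]
      refine Quotient.sound ⟨-1, ?_⟩
      show (F ^ (-1 : ℤ)) (g x) = M x
      rw [zpow_neg_one, Equiv.Perm.inv_eq_iff_eq]
      show g x = g (m (m x))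
      rw [hm x]
    show decide (WellOrderingRel (⟦g x⟧ : Quotient S) (μ ⟦g x⟧)) = _
    rw [h3, hμμ]
    rcases trichotomous_of (WellOrderingRel (α := Quotient S)) ⟦x⟧ (μ ⟦x⟧) with h | h | h
    · have h' := asymm h
      simp [h, h']
    · exact absurd h.symm (hμn _)
    · have h' := asymm h
      simp [h, h']

/-- **the strands can be oriented** -/
theorem Two.exists_ori (h : Two m g) : ∃ s, Ori m g s := by
  classical
  let mD : α × Bool → α × Bool := fun x => (m x.1, x.2)
  let gD : α × Bool → α × Bool := fun x => if g x.1 = x.1 then (x.1, !x.2) else (g x.1, x.2)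
  have hm : Involutive mD := fun x => by
    show (m (m x.1), x.2) = x
    rw [h.m_inv]
  have hg : Involutive gD := fun x => by
    by_cases h1 : g x.1 = x.1
    · have e : gD x = (x.1, !x.2) := if_pos h1
      rw [e]
      show (if g x.1 = x.1 then (x.1, !!x.2) else (g x.1, !x.2)) = x
      rw [if_pos h1, Bool.not_not]
    · have e : gD x = (g x.1, x.2) := if_neg h1
      rw [e]
      show (if g (g x.1) = g x.1 then (g x.1, !x.2) else (g (g x.1), x.2)) = x
      have h2 : g (g x.1) ≠ g x.1 := by rw [h.g_inv]; exact Ne.symm h1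
      rw [if_neg h2, h.g_inv]
  have nm : ∀ x, mD x ≠ x := fun x hx => h.m_ne x.1 (congrArg Prod.fst hx)
  have ng : ∀ x, gD x ≠ x := fun x hx => by
    by_cases h1 : g x.1 = x.1
    · have e : gD x = (x.1, !x.2) := if_pos h1
      rw [e] at hx
      have := congrArg Prod.snd hx
      simp at this
    · have e : gD x = (g x.1, x.2) := if_neg h1
      rw [e] at hx
      exact h1 (congrArg Prod.fst hx)
  obtain ⟨s, h1, h2⟩ := exists_ori_aux hm hg nm ng
  refine ⟨fun x => s (x, false), fun x => h1 (x, false), fun x hx => ?_⟩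
  have h3 := h2 (x, false)
  have e : gD (x, false) = (g x, false) := if_neg hx
  rw [e] at h3
  exact h3

end Full
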