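import Pool.Agent.Full.Net.Net
import Pool.Agent.Full.SixV.Weights

/-!
# The row bridge

The row transfer matrix `SixV.T` at the isotropic point is a sum over the arrows on the vertical sides
of the tiles of the row of products of tile weights.  The auxiliary spin `true` is an arrow which
points to the west, the column spin `true` is an arrow which points to the north.
-/

set_option autoImplicit false

namespace Full
open Finset Matrix SixV

noncomputable section

/-- the arrows of a tile: column spins `s'` (north side) and `s` (south side), auxiliary spins `x'`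
(west side) and `x` (east side) -/
def ro (s' s x' x : Bool) : Dir → Bool
  | .E => !x
  | .N => s'
  | .W => x'
  | .S => !s

lemma cos_four : Complex.cos (4 * ((Real.pi / 24 : ℝ) : ℂ)) = Complex.cos ((Real.pi / 6 : ℝ) : ℂ) := by
  congr 1
  push_cast
  ring

/-- the local tensor of the row matrix is the tile weight -/
theorem L_tw (s' s x' x : Bool) :
    L ((Real.pi / 6 : ℝ) : ℂ) s' s x' x = tw (Real.pi / 24) (ro s' s x' x) := by
  have h1 : lam - ((Real.pi / 6 : ℝ) : ℂ) = ((Real.pi / 6 : ℝ) : ℂ) := by
    unfold lam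
    rw [← Complex.ofReal_sub]
    congr 1
    ring
  have h2 : lam + ((Real.pi / 6 : ℝ) : ℂ) = ((Real.pi / 2 : ℝ) : ℂ) := by
    unfold lam
    rw [← Complex.ofReal_add]
    congr 1
    ring
  have h3 : Complex.sin ((Real.pi / 6 : ℝ) : ℂ) = 1 / 2 := by
    rw [← Complex.ofReal_sin, Real.sin_pi_div_six]
    push_cast
    ring
  have h4 : Complex.sin ((Real.pi / 2 : ℝ) : ℂ) = 1 := by
    rw [← Complex.ofReal_sin, Real.sin_pi_div_two]
    push_cast
    ring
  have h5 : Complex.sin lam = Complex.cos ((Real.pi / 6 : ℝ) : ℂ) := by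
    unfold lam
    rw [← Complex.ofReal_sin, ← Complex.ofReal_cos, Real.sin_pi_div_three, Real.cos_pi_div_six]
  unfold L Lt tw
  rw [h1, h2, h3, h4, h5, cos_four]
  cases s' <;> cases s <;> cases x' <;> cases x <;> simp [ro]

variable {ι : Type*} [Fintype ι] [DecidableEq ι]

/-- a row is a sum over paths of the auxiliary space -/
theorem rp_path (A : Bool → Bool → Matrix ι ι ℂ) : ∀ (n : ℕ) (s' s : Cfg n) (a b : ι),
    rp A n s' s a b = ∑ h : Fin (n + 1) → ι, (if h 0 = a ∧ h (Fin.last n) = b then
      ∏ j : Fin n, A (s' j) (s j) (h j.castSucc) (h j.succ) else 0)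
  | 0, s', s, a, b => by
      rw [rp_zero, Matrix.one_apply]
      have e : ∀ h : Fin 1 → ι, (if h 0 = a ∧ h (Fin.last 0) = b then
          ∏ j : Fin 0, A (s' j) (s j) (h j.castSucc) (h j.succ) else 0) =
          if h 0 = a then (if a = b then (1 : ℂ) else 0) else 0 := by
        intro h
        rw [Finset.prod_of_isEmpty]
        have : h (Fin.last 0) = h 0 := rfl
        rw [this]
        by_cases h1 : h 0 = a
        · rw [h1]
          by_cases h2 : a = b <;> simp [h2]
        · simp [h1]
      simp only [e]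
      rw [← (Equiv.funUnique (Fin 1) ι).symm.sum_comp]
      simp [Equiv.funUnique]
  | (n + 1), s', s, a, b => by
      rw [rp_succ, Matrix.mul_apply]
      rw [← (Fin.consEquiv (fun _ => ι)).sum_comp, Fintype.sum_prod_type]
      have e : ∀ (x : ι) (h : Fin (n + 1) → ι),
          (if (Fin.consEquiv (fun _ : Fin (n + 2) => ι)) (x, h) 0 = a ∧
            (Fin.consEquiv (fun _ : Fin (n + 2) => ι)) (x, h) (Fin.last (n + 1)) = b then
            ∏ j : Fin (n + 1), A (s' j) (s j) ((Fin.consEquiv (fun _ : Fin (n + 2) => ι)) (x, h) j.castSucc)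
              ((Fin.consEquiv (fun _ : Fin (n + 2) => ι)) (x, h) j.succ) else 0) =
          if x = a then A (s' 0) (s 0) a (h 0) * (if h (Fin.last n) = b then
            ∏ j : Fin n, A (s' j.succ) (s j.succ) (h j.castSucc) (h j.succ) else 0) else 0 := by
        intro x h
        have e1 : (Fin.consEquiv (fun _ : Fin (n + 2) => ι)) (x, h) 0 = x := rfl
        have e2 : (Fin.consEquiv (fun _ : Fin (n + 2) => ι)) (x, h) (Fin.last (n + 1)) = h (Fin.last n) := by
          rw [← Fin.succ_last]
          rfl
        rw [e1, e2, Fin.prod_univ_succ]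
        by_cases h1 : x = a
        · subst h1
          by_cases h2 : h (Fin.last n) = b
          · rw [if_pos ⟨rfl, h2⟩, if_pos rfl, if_pos h2]
            rfl
          · rw [if_neg (fun h => h2 h.2), if_pos rfl, if_neg h2, mul_zero]
        · rw [if_neg (fun h => h1 h.1), if_neg h1]
      simp only [e]
      rw [Finset.sum_comm]
      simp only [Finset.sum_ite_eq', Finset.mem_univ, if_true]
      have ih := fun c => rp_path A n (Fin.tail s') (Fin.tail s) c b
      simp only [ih, Finset.mul_sum]
      rw [Finset.sum_comm]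
      refine Finset.sum_congr rfl fun h _ => ?_
      have e3 : ∀ c : ι, A (s' 0) (s 0) a c * (if h 0 = c ∧ h (Fin.last n) = b then
          ∏ j : Fin n, A (Fin.tail s' j) (Fin.tail s j) (h j.castSucc) (h j.succ) else 0) =
          if h 0 = c then A (s' 0) (s 0) a (h 0) * (if h (Fin.last n) = b then
            ∏ j : Fin n, A (s' j.succ) (s j.succ) (h j.castSucc) (h j.succ) else 0) else 0 := by
        intro c
        by_cases h1 : h 0 = c
        · subst h1
          by_cases h2 : h (Fin.last n) = b
          · rw [if_pos ⟨rfl, h2⟩, if_pos rfl, if_pos h2]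
            rfl
          · rw [if_neg (fun h => h2 h.2), if_pos rfl, if_neg h2]
        · rw [if_neg (fun h => h1 h.1), if_neg h1, mul_zero]
      simp only [e3, Finset.sum_ite_eq, Finset.mem_univ, if_true]

/-- **the closed row is a cyclic sum** -/
theorem mpo_cyc (d : ι → ℂ) (A : Bool → Bool → Matrix ι ι ℂ) (n : ℕ) (s' s : Cfg (n + 1)) :
    mpo (Matrix.diagonal d) A (n + 1) s' s =
      ∑ h : Fin (n + 1) → ι, d (h 0) * ∏ j : Fin (n + 1), A (s' j) (s j) (h j) (h (j + 1)) := by
  unfold mpo
  rw [Matrix.trace]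
  simp only [Matrix.diag_apply, Matrix.diagonal_mul, rp_path, Finset.mul_sum]
  rw [Finset.sum_comm]
  rw [← (Fin.snocEquiv (fun _ => ι)).sum_comp, Fintype.sum_prod_type, Finset.sum_comm]
  refine Finset.sum_congr rfl fun h _ => ?_
  have e : ∀ x a : ι, d a * (if (Fin.snocEquiv (fun _ : Fin (n + 2) => ι)) (x, h) 0 = a ∧
      (Fin.snocEquiv (fun _ : Fin (n + 2) => ι)) (x, h) (Fin.last (n + 1)) = a then
      ∏ j : Fin (n + 1), A (s' j) (s j) ((Fin.snocEquiv (fun _ : Fin (n + 2) => ι)) (x, h) j.castSucc)
        ((Fin.snocEquiv (fun _ : Fin (n + 2) => ι)) (x, h) j.succ) else 0) =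
      if a = h 0 then (if x = h 0 then d (h 0) * ∏ j : Fin (n + 1), A (s' j) (s j) (h j) (h (j + 1))
        else 0) else 0 := by
    intro x a
    have e1 : (Fin.snocEquiv (fun _ : Fin (n + 2) => ι)) (x, h) 0 = h 0 := by
      have : (0 : Fin (n + 2)) = Fin.castSucc 0 := rfl
      rw [this]
      show (Fin.snoc h x : Fin (n + 2) → ι) (Fin.castSucc 0) = _
      rw [Fin.snoc_castSucc]
    have e2 : (Fin.snocEquiv (fun _ : Fin (n + 2) => ι)) (x, h) (Fin.last (n + 1)) = x := by
      show (Fin.snoc h x : Fin (n + 2) → ι) (Fin.last (n + 1)) = _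
      rw [Fin.snoc_last]
    rw [e1, e2]
    by_cases h1 : a = h 0
    · subst h1
      by_cases h2 : x = h 0
      · subst h2
        rw [if_pos ⟨rfl, rfl⟩, if_pos rfl, if_pos rfl]
        congr 1
        refine Finset.prod_congr rfl fun j _ => ?_
        have e3 : (Fin.snocEquiv (fun _ : Fin (n + 2) => ι)) (h 0, h) j.castSucc = h j := by
          show (Fin.snoc h (h 0) : Fin (n + 2) → ι) (Fin.castSucc j) = _
          rw [Fin.snoc_castSucc]
        have e4 : (Fin.snocEquiv (fun _ : Fin (n + 2) => ι)) (h 0, h) j.succ = h (j + 1) := by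
          show (Fin.snoc h (h 0) : Fin (n + 2) → ι) (Fin.succ j) = _
          refine Fin.lastCases ?_ (fun i => ?_) j
          · rw [Fin.succ_last, Fin.snoc_last, Fin.last_add_one]
          · rw [Fin.succ_castSucc, Fin.snoc_castSucc, Fin.coeSucc_eq_succ]
        rw [e3, e4]
      · rw [if_neg (fun h => h2 h.2), if_pos rfl, if_neg h2, mul_zero]
    · rw [if_neg (fun h => h1 h.1.symm), if_neg h1, mul_zero]
  simp only [e, Finset.sum_ite_eq', Finset.mem_univ, if_true]

/-- **the row bridge**: `h j` is the arrow on the west side of the tile `j` (`true`: it points west),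
`d` the factor of the seam on the west side of the tile `0` -/
theorem T_row (n : ℕ) (d : Bool → ℂ) (s' s : Cfg (n + 1)) :
    SixV.T (n + 1) d ((Real.pi / 6 : ℝ) : ℂ) s' s =
      ∑ h : Fin (n + 1) → Bool, d (h 0) *
        ∏ j : Fin (n + 1), tw (Real.pi / 24) (ro (s' j) (s j) (h j) (h (j + 1))) := by
  unfold SixV.T
  rw [mpo_cyc]
  simp only [L_tw]

end

end Full
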