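import Pool.Agent.Full.Net.Expand

/-!
# The value of a strand, of a loop, and the product over the strands

`Zs_strand`, `Zs_loop`: the sum over the two orientations.  `amp_fq`: the turning.  `amp_ends`: a strand
with trivial factors on the glued half edges.  `prod_ends`: the product over the components as a product
over a selection of one end of every strand, times the loops.
-/

set_option autoImplicit false

namespace Full.Net
open Finset Function

section abs
variable {α : Type*} [DecidableEq α] {R : Type*} [CommSemiring R] {m g : α → α}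

/-- the number of steps of the strand which starts at the fixed point `e` -/
noncomputable def len (m g : α → α) (e : α) : ℕ := minimalPeriod (g ∘ m) e / 2

omit [DecidableEq α] in
lemma iter_mem {V : Finset α} (hm : Clo V m) (hg : Clo V g) {x : α} (hx : x ∈ V) (k : ℕ) :
    (g ∘ m)^[k] x ∈ V := by
  induction k with
  | zero => exact hx
  | succ k ih =>
    rw [iterate_succ_apply']
    exact hg _ (hm _ ih)

/-- the sum over the two orientations of a strand -/
theorem Zs_strand (h : Two m g) {V : Finset α} (hm : Clo V m) (hg : Clo V g) {e : α} (he : e ∈ V)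
    (hge : g e = e) (hp : e ∈ periodicPts (g ∘ m)) (f : α → Bool → R) :
    Zs (cls V m g e) m g f = amp m g f (len m g e) e + ampr m g f (len m g e) e := by
  have h0 := h.even hge hp
  have hpos := Two.period_pos hp
  unfold len
  set N := minimalPeriod (g ∘ m) e with hN
  refine Zs_walk h (self_mem_cls he) (cls_clo_m hm e) (cls_clo_g hg e) ?_ ?_ ?_ ?_ f
  · intro y hy
    obtain ⟨k, hk, rfl⟩ := h.exists_iter hge hp (mem_cls.1 hy).2
    rcases Nat.lt_or_ge k (N / 2) with h1 | h1
    · exact ⟨k, h1, Or.inl rfl⟩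
    · refine ⟨N - (k + 1), by omega, Or.inr ?_⟩
      rw [h.m_iter hge (by omega), ← hN]
      congr 1
      omega
  · intro k _
    exact iter_mem (cls_clo_m hm e) (cls_clo_g hg e) (self_mem_cls he) k
  · intro j hj k hk h1
    exact (iterate_eq_iterate_iff_of_lt_minimalPeriod (f := g ∘ m) (x := e) (by omega)
      (by omega)).1 h1
  · intro j hj k hk h1
    rw [h.m_iter hge (by omega), ← hN] at h1
    have h2 := (iterate_eq_iterate_iff_of_lt_minimalPeriod (f := g ∘ m) (x := e) (by omega)
      (by omega)).1 h1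
    omega

omit [DecidableEq α] in
/-- in a loop the exits are no entries -/
theorem loop_disj (h : Two m g) {x : α} (hl : ∀ y, Conn m g x y → g y ≠ y) (j k : ℕ) :
    (g ∘ m)^[j] x ≠ m ((g ∘ m)^[k] x) := by
  intro h1
  have h2 : (g ∘ m)^[k + 1 + j] x = g x := by
    rw [iterate_add_apply, h1, h.iter_m]
  rcases Nat.even_or_odd (k + 1 + j) with ⟨s, hs⟩ | ⟨s, hs⟩
  · rw [hs, iterate_add_apply, ← h.iter_g s x] at h2
    exact hl _ (Conn.iter s x) (h.inj.iterate s h2).symm
  · rw [hs, show 2 * s + 1 = (s + 1) + s by ring, iterate_add_apply, ← h.iter_m s x] at h2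
    exact h.m_ne _ (h.inj.iterate (s + 1) h2).symm

/-- the sum over the two orientations of a loop -/
theorem Zs_loop (h : Two m g) {V : Finset α} (hm : Clo V m) (hg : Clo V g) {x : α} (hx : x ∈ V)
    (hl : ∀ y, Conn m g x y → g y ≠ y) (hp : x ∈ periodicPts (g ∘ m)) (f : α → Bool → R) :
    Zs (cls V m g x) m g f = amp m g f (minimalPeriod (g ∘ m) x) x +
      ampr m g f (minimalPeriod (g ∘ m) x) x := by
  have hpos := Two.period_pos hp
  set N := minimalPeriod (g ∘ m) x with hN
  have hmod : ∀ k, (g ∘ m)^[k % N] x = (g ∘ m)^[k] x := fun k => iterate_mod_minimalPeriod_eq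
  refine Zs_walk h (self_mem_cls hx) (cls_clo_m hm x) (cls_clo_g hg x) ?_ ?_ ?_ ?_ f
  · intro y hy
    have h1 := (mem_cls.1 hy).2
    clear hy
    have key : ∃ k, y = (g ∘ m)^[k] x ∨ y = m ((g ∘ m)^[k] x) := by
      induction h1 with
      | refl => exact ⟨0, Or.inl rfl⟩
      | @tail b c _ h2 ih =>
        obtain ⟨k, rfl | rfl⟩ := ih
        · rcases h2 with rfl | rfl
          · exact ⟨k, Or.inr rfl⟩
          · refine ⟨k + N - 1, Or.inr ?_⟩
            have h3 : (g ∘ m)^[k] x = (g ∘ m)^[k + N - 1 + 1] x := by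
              rw [show k + N - 1 + 1 = k + N by omega, iterate_add_apply,
                iterate_minimalPeriod]
            rw [h3, iterate_succ_apply']
            show g (g (m _)) = _
            rw [h.g_inv]
        · rcases h2 with rfl | rfl
          · exact ⟨k, Or.inl (h.m_inv _)⟩
          · exact ⟨k + 1, Or.inl (by rw [iterate_succ_apply']; rfl)⟩
    obtain ⟨k, h2⟩ := key
    refine ⟨k % N, Nat.mod_lt _ hpos, ?_⟩
    rw [hmod]
    exact h2
  · intro k _
    exact iter_mem (cls_clo_m hm x) (cls_clo_g hg x) (self_mem_cls hx) k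
  · intro j hj k hk h1
    exact (iterate_eq_iterate_iff_of_lt_minimalPeriod (f := g ∘ m) (x := x) hj hk).1 h1
  · intro j _ k _
    exact loop_disj h hl j k

/-- the links of a strand: the amplitude is the product of the two end factors and of the factors of
the glued pairs which are crossed -/
theorem amp_links (h : Two m g) {e : α} (hge : g e = e) (hp : e ∈ periodicPts (g ∘ m))
    (f : α → Bool → R) : amp m g f (len m g e) e =
      f e false * (∏ k ∈ range (len m g e - 1),
        f (m ((g ∘ m)^[k] e)) true * f (g (m ((g ∘ m)^[k] e))) false) * f (other m g e) true := by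
  have h0 := h.even hge hp
  have hpos := Two.period_pos hp
  have hlast := h.m_last hge hp
  unfold len amp
  obtain ⟨n, hn⟩ : ∃ n, minimalPeriod (g ∘ m) e / 2 = n + 1 :=
    ⟨minimalPeriod (g ∘ m) e / 2 - 1, by omega⟩
  rw [hn, Nat.add_sub_cancel] at hlast
  rw [hn, Nat.add_sub_cancel, ← hlast]
  clear hn h0 hpos
  have key : ∀ n, (∏ k ∈ range (n + 1), f ((g ∘ m)^[k] e) false * f (m ((g ∘ m)^[k] e)) true) =
      f e false * (∏ k ∈ range n, f (m ((g ∘ m)^[k] e)) true *
        f (g (m ((g ∘ m)^[k] e))) false) * f (m ((g ∘ m)^[n] e)) true := by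
    intro n
    induction n with
    | zero => simp
    | succ n ih =>
      rw [prod_range_succ, ih, prod_range_succ _ n, iterate_succ_apply']
      simp only [comp_apply]
      ring
  exact key n

theorem ampr_links (h : Two m g) {e : α} (hge : g e = e) (hp : e ∈ periodicPts (g ∘ m))
    (f : α → Bool → R) : ampr m g f (len m g e) e =
      f e true * (∏ k ∈ range (len m g e - 1),
        f (m ((g ∘ m)^[k] e)) false * f (g (m ((g ∘ m)^[k] e))) true) * f (other m g e) false :=
  amp_links h hge hp fun x b => f x (!b)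

/-- trivial factors on the glued half edges: only the two ends count -/
theorem amp_ends (h : Two m g) {e : α} (hge : g e = e) (hp : e ∈ periodicPts (g ∘ m))
    {f : α → Bool → R} (h1 : ∀ y, Conn m g e y → g y ≠ y → ∀ b, f y b = 1) :
    amp m g f (len m g e) e = f e false * f (other m g e) true := by
  have h0 := h.even hge hp
  have hpos := Two.period_pos hp
  rw [amp_links h hge hp, prod_eq_one, mul_one]
  intro k hk
  rw [mem_range] at hk
  unfold len at hk
  have h2 := h.inner hge hp (k := k + 1) (by omega) (by omega)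
  rw [iterate_succ_apply'] at h2
  have h3 : g (m ((g ∘ m)^[k] e)) ≠ m ((g ∘ m)^[k] e) := by
    intro h4
    apply h2
    show g (g (m _)) = g (m _)
    rw [h4, h4]
  have h5 : Conn m g e (m ((g ∘ m)^[k] e)) := (Conn.iter k e).trans (Conn.m_step _)
  rw [h1 _ h5 h3, h1 _ (h5.trans (Conn.g_step _)) h2, mul_one]

theorem ampr_ends (h : Two m g) {e : α} (hge : g e = e) (hp : e ∈ periodicPts (g ∘ m))
    {f : α → Bool → R} (h1 : ∀ y, Conn m g e y → g y ≠ y → ∀ b, f y b = 1) :
    ampr m g f (len m g e) e = f e true * f (other m g e) false :=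
  amp_ends h hge hp (f := fun x b => f x (!b)) fun y hy hy2 b => h1 y hy hy2 (!b)

omit [DecidableEq α] in
/-- trivial factors: a loop -/
theorem amp_one {f : α → Bool → R} {x : α} (h1 : ∀ y, Conn m g x y → ∀ b, f y b = 1) (n : ℕ) :
    amp m g f n x = 1 := by
  unfold amp
  refine prod_eq_one fun k _ => ?_
  rw [h1 _ (Conn.iter k x), h1 _ ((Conn.iter k x).trans (Conn.m_step _)), mul_one]

omit [DecidableEq α] in
theorem ampr_one {f : α → Bool → R} {x : α} (h1 : ∀ y, Conn m g x y → ∀ b, f y b = 1) (n : ℕ) :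
    ampr m g f n x = 1 := amp_one (f := fun x b => f x (!b)) (fun y hy b => h1 y hy (!b)) n

/-! ### the product over the components -/

/-- the ends of the strands -/
def ends (V : Finset α) (g : α → α) : Finset α := V.filter fun x => g x = x

lemma mem_ends {V : Finset α} {x : α} : x ∈ ends V g ↔ x ∈ V ∧ g x = x := by
  unfold ends
  rw [mem_filter]

/-- the loops -/
noncomputable def loops (V : Finset α) (m g : α → α) : Finset (Finset α) :=
  (comps V m g).filter fun C => ∀ x ∈ C, g x ≠ x

/-- `S` contains exactly one end of every strand -/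
def Sel (V : Finset α) (m g : α → α) (S : Finset α) : Prop :=
  S ⊆ ends V g ∧ ∀ e ∈ ends V g, (other m g e ∈ S ↔ e ∉ S)

theorem prod_ends (h : Two m g) {V : Finset α}
    (hper : ∀ x ∈ V, x ∈ periodicPts (g ∘ m)) {S : Finset α} (hS : Sel V m g S)
    (F : Finset α → R) :
    ∏ C ∈ comps V m g, F C = (∏ e ∈ S, F (cls V m g e)) * ∏ C ∈ loops V m g, F C := by
  have hdis : Disjoint (S.image (cls V m g)) (loops V m g) := by
    rw [Finset.disjoint_left]
    intro C h1 h2
    obtain ⟨e, he, rfl⟩ := mem_image.1 h1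
    have h3 := mem_ends.1 (hS.1 he)
    exact (mem_filter.1 h2).2 e (self_mem_cls h3.1) h3.2
  have hun : comps V m g = S.image (cls V m g) ∪ loops V m g := by
    ext C
    rw [mem_union]
    constructor
    · intro hC
      by_cases h1 : ∀ x ∈ C, g x ≠ x
      · exact Or.inr (mem_filter.2 ⟨hC, h1⟩)
      · left
        push Not at h1
        obtain ⟨x, hx, hgx⟩ := h1
        unfold comps at hC
        obtain ⟨y, hy, rfl⟩ := mem_image.1 hC
        have hxV := cls_subset y hx
        have hxe : x ∈ ends V g := mem_ends.2 ⟨hxV, hgx⟩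
        rw [← cls_eq h hx, mem_image]
        by_cases h2 : x ∈ S
        · exact ⟨x, h2, rfl⟩
        · have h3 := (hS.2 x hxe).2 h2
          refine ⟨other m g x, h3, ?_⟩
          refine cls_eq h (mem_cls.2 ⟨?_, Two.conn_other x⟩)
          exact (mem_ends.1 (hS.1 h3)).1
    · rintro (h1 | h1)
      · obtain ⟨e, he, rfl⟩ := mem_image.1 h1
        exact mem_image.2 ⟨e, (mem_ends.1 (hS.1 he)).1, rfl⟩
      · exact (mem_filter.1 h1).1
  rw [hun, prod_union hdis, prod_image]
  intro e he e' he' h1
  have h2 := mem_ends.1 (hS.1 he)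
  have h3 := mem_ends.1 (hS.1 he')
  have h4 : e' ∈ cls V m g e := by
    have h1' : cls V m g e = cls V m g e' := h1
    rw [h1']
    exact self_mem_cls h3.1
  rcases h.eq_or_eq_other h2.2 (hper e h2.1) h3.2 (mem_cls.1 h4).2 with h5 | h5
  · exact h5.symm
  · exfalso
    rw [h5] at he'
    exact (hS.2 e (hS.1 he)).1 he' he

end abs

/-! ### the strands of a configuration -/

section
variable {τ : Type*} [DecidableEq τ] {T : Finset τ} {g : Half τ → Half τ}

lemma clo_mate (T ω : Finset τ) : Clo (hs T) (mate ω) := fun x hx => by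
  rw [mem_hs] at hx ⊢
  exact hx

lemma clo_glue (hG : Glu T g) : Clo (hs T) g := fun x hx => by
  rw [mem_hs] at hx ⊢
  exact hG.mem x hx

lemma mem_bd {x : Half τ} : x ∈ ends (hs T) g ↔ Bd T g x := by
  rw [mem_ends, mem_hs]
  exact Iff.rfl

/-- the quarter turns -/
theorem amp_fq {q : ℂ} (hq : q ≠ 0) (ω : Finset τ) (β : Half τ → Bool → ℂ) (n : ℕ) (x : Half τ) :
    amp (mate ω) g (fq q ω β) n x = amp (mate ω) g β n x * q ^ turn ω g n x := by
  unfold amp turn
  induction n with
  | zero => simp
  | succ n ih =>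
    rw [prod_range_succ, prod_range_succ, ih, sum_range_succ, zpow_add₀ hq]
    simp only [fq, Bool.false_eq_true, if_false, if_true, mul_one]
    ring

theorem ampr_fq {q : ℂ} (hq : q ≠ 0) (ω : Finset τ) (β : Half τ → Bool → ℂ) (n : ℕ)
    (x : Half τ) :
    ampr (mate ω) g (fq q ω β) n x = ampr (mate ω) g β n x * q ^ (-turn ω g n x) := by
  unfold ampr turn
  induction n with
  | zero => simp
  | succ n ih =>
    rw [prod_range_succ, prod_range_succ, ih, sum_range_succ, neg_add, zpow_add₀ hq]
    simp only [fq, Bool.false_eq_true, if_false, if_true, mul_one, qt_mate]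
    ring

/-- the turning of the strand which starts at the boundary half edge `e` -/
noncomputable def sturn (ω : Finset τ) (g : Half τ → Half τ) (e : Half τ) : ℤ :=
  turn ω g (len (mate ω) g e) e

/-- weight of a strand -/
noncomputable def sw (q : ℂ) (ω : Finset τ) (g : Half τ → Half τ) (β : Half τ → Bool → ℂ)
    (e : Half τ) : ℂ :=
  amp (mate ω) g β (len (mate ω) g e) e * q ^ sturn ω g e +
    ampr (mate ω) g β (len (mate ω) g e) e * q ^ (-sturn ω g e)

theorem Zs_eq_sw (hG : Glu T g) {q : ℂ} (hq : q ≠ 0) (ω : Finset τ) (β : Half τ → Bool → ℂ)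
    {e : Half τ} (he : Bd T g e) :
    Zs (cls (hs T) (mate ω) g e) (mate ω) g (fq q ω β) = sw q ω g β e := by
  rw [Zs_strand (hG.two ω) (clo_mate T ω) (clo_glue hG) (mem_hs.2 he.1) he.2
    (hG.periodic ω e), amp_fq hq, ampr_fq hq]
  rfl

/-- weight of a strand, if the factors of its glued half edges are trivial -/
theorem sw_eq (hG : Glu T g) (q : ℂ) (ω : Finset τ) {β : Half τ → Bool → ℂ} {e : Half τ}
    (he : Bd T g e) (h1 : ∀ y, Conn (mate ω) g e y → g y ≠ y → ∀ b, β y b = 1) :
    sw q ω g β e = β e false * β (other (mate ω) g e) true * q ^ sturn ω g e +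
      β e true * β (other (mate ω) g e) false * q ^ (-sturn ω g e) := by
  unfold sw
  rw [amp_ends (hG.two ω) he.2 (hG.periodic ω e) h1, ampr_ends (hG.two ω) he.2
    (hG.periodic ω e) h1]

/-- the turning of the loop through `x` -/
noncomputable def lturn (ω : Finset τ) (g : Half τ → Half τ) (x : Half τ) : ℤ :=
  turn ω g (minimalPeriod (g ∘ mate ω) x) x

/-- weight of the loop through `x` -/
noncomputable def lw (q : ℂ) (ω : Finset τ) (g : Half τ → Half τ) (β : Half τ → Bool → ℂ)
    (x : Half τ) : ℂ :=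
  amp (mate ω) g β (minimalPeriod (g ∘ mate ω) x) x * q ^ lturn ω g x +
    ampr (mate ω) g β (minimalPeriod (g ∘ mate ω) x) x * q ^ (-lturn ω g x)

theorem Zs_eq_lw (hG : Glu T g) {q : ℂ} (hq : q ≠ 0) (ω : Finset τ) (β : Half τ → Bool → ℂ)
    {x : Half τ} (hx : x.1 ∈ T) (hl : ∀ y, Conn (mate ω) g x y → g y ≠ y) :
    Zs (cls (hs T) (mate ω) g x) (mate ω) g (fq q ω β) = lw q ω g β x := by
  rw [Zs_loop (hG.two ω) (clo_mate T ω) (clo_glue hG) (mem_hs.2 hx) hl
    (hG.periodic ω x), amp_fq hq, ampr_fq hq]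
  rfl

/-- all loops have weight one -/
def LoopOne (T : Finset τ) (g : Half τ → Half τ) (q : ℂ) (ω : Finset τ)
    (β : Half τ → Bool → ℂ) : Prop :=
  ∀ x, x.1 ∈ T → (∀ y, Conn (mate ω) g x y → g y ≠ y) → lw q ω g β x = 1

/-- **the expansion, if all loops have weight one** -/
theorem net_strands (hG : Glu T g) {q : ℂ} (hq : q ≠ 0) (β : Half τ → Bool → ℂ)
    (hl : ∀ ω ⊆ T, LoopOne T g q ω β) (S : Finset τ → Finset (Half τ))
    (hS : ∀ ω ⊆ T, Sel (hs T) (mate ω) g (S ω)) : net T g (cq q) β =
      ∑ ω ∈ T.powerset, (1 / 2) ^ T.card * ∏ e ∈ S ω, sw q ω g β e := by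
  rw [net_expand hq]
  refine sum_congr rfl fun ω hω => ?_
  have hω' := mem_powerset.1 hω
  rw [Zs_eq_prod (hG.two ω) _ _ (clo_mate T ω) (clo_glue hG), prod_ends (hG.two ω)
    (fun x _ => hG.periodic ω x) (hS ω hω'), prod_eq_one (s := loops _ _ _),
    mul_one]
  · congr 1
    refine prod_congr rfl fun e he => ?_
    exact Zs_eq_sw hG hq ω β (mem_bd.1 ((hS ω hω').1 he))
  · intro C hC
    unfold loops at hC
    rw [mem_filter] at hC
    obtain ⟨h1, h2⟩ := hC
    unfold comps at h1
    obtain ⟨x, hx, rfl⟩ := mem_image.1 h1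
    have h3 : ∀ y, Conn (mate ω) g x y → g y ≠ y := fun y hy =>
      h2 y (mem_cls.2 ⟨mem_hs.2 (hG.conn_mem hy (mem_hs.1 hx)), hy⟩)
    rw [Zs_eq_lw hG hq ω β (mem_hs.1 hx) h3]
    exact hl ω hω' x (mem_hs.1 hx) h3

end

end Full.Net
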