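import Pool.Agent.Full.Net.Ori

/-!
# Sums over orientations

`St m g` is the type of strands.  A sum over all orientations of a finite set `H` of points (closed
under `m` and `g`) is a product over the strands in `H`; the factor of a strand is the sum over its two
orientations.
-/

set_option autoImplicit false

namespace Full
open Function Relation Finset

variable {α : Type*} {m g : α → α}

/-- the strands -/
def St (m g : α → α) : Type _ := Quot (Conn m g)

/-- the strand of a point -/
def st (m g : α → α) (x : α) : St m g := Quot.mk _ x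

theorem Two.st_eq (h : Two m g) {x y : α} : st m g x = st m g y ↔ Conn m g x y := by
  constructor
  · intro hxy
    have := Quot.eqvGen_exact hxy
    induction this with
    | rel x y h1 => exact h1
    | refl x => exact Conn.refl x
    | symm x y _ ih => exact h.symm (ih (Quot.eqvGen_sound (by assumption)))
    | trans x y z _ _ ih1 ih2 =>
      exact (ih1 (Quot.eqvGen_sound (by assumption))).trans (ih2 (Quot.eqvGen_sound (by assumption)))
  · intro hc
    exact Quot.sound hc

lemma st_m (x : α) : st m g (m x) = st m g x := (Quot.sound (Conn.m_step x)).symm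

lemma st_g (x : α) : st m g (g x) = st m g x := (Quot.sound (Conn.g_step x)).symm

lemma st_iter (k : ℕ) (x : α) : st m g ((g ∘ m)^[k] x) = st m g x :=
  (Quot.sound (Conn.iter k x)).symm

/-- an orientation of the points of `H`, given by the set `O` of the outgoing ones -/
def OriOn (m g : α → α) (H O : Finset α) : Prop :=
  ∀ x ∈ H, (m x ∈ O ↔ x ∉ O) ∧ (g x ≠ x → (g x ∈ O ↔ x ∉ O))

/-- two orientations of a strand are equal or opposite -/
lemma ori_conn {H : Finset α} (hm : ∀ x ∈ H, m x ∈ H) (hg : ∀ x ∈ H, g x ∈ H) {s s' : α → Bool}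
    (h1 : ∀ x ∈ H, s (m x) = !s x ∧ (g x ≠ x → s (g x) = !s x))
    (h2 : ∀ x ∈ H, s' (m x) = !s' x ∧ (g x ≠ x → s' (g x) = !s' x)) {x y : α} (hx : x ∈ H)
    (hc : Conn m g x y) : y ∈ H ∧ xor (s y) (s' y) = xor (s x) (s' x) := by
  induction hc with
  | refl => exact ⟨hx, rfl⟩
  | @tail b c _ h3 ih =>
    obtain ⟨hb, ih⟩ := ih
    rcases h3 with rfl | rfl
    · refine ⟨hm b hb, ?_⟩
      rw [(h1 b hb).1, (h2 b hb).1, ← ih]
      cases s b <;> cases s' b <;> rfl
    · refine ⟨hg b hb, ?_⟩
      by_cases h4 : g b = b
      · rw [h4, ih]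
      · rw [(h1 b hb).2 h4, (h2 b hb).2 h4, ← ih]
        cases s b <;> cases s' b <;> rfl

variable {R : Type*} [CommSemiring R]

open Classical in
/-- the factor of a strand: the sum over its two orientations `s` and `!s` -/
noncomputable def sw (m g : α → α) (H : Finset α) (E : α → Bool → R) (s : α → Bool) (c : St m g) :
    R :=
  ∑ a : Bool, ∏ x ∈ H with st m g x = c, E x (xor a (s x))

open Classical in
/-- **a sum over orientations is a product over strands** -/
theorem sum_ori (H : Finset α) (hm : ∀ x ∈ H, m x ∈ H) (hg : ∀ x ∈ H, g x ∈ H)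
    {s : α → Bool} (hs : ∀ x ∈ H, s (m x) = !s x ∧ (g x ≠ x → s (g x) = !s x)) (h : Two m g)
    (E : α → Bool → R) :
    ∑ O ∈ H.powerset with OriOn m g H O, ∏ x ∈ H, E x (decide (x ∈ O)) =
      ∏ c ∈ H.image (st m g), sw m g H E s c := by
  set C := H.image (st m g) with hC
  have e1 : ∀ c ∈ C, sw m g H E s c = (∏ x ∈ H with st m g x = c, E x (xor true (s x))) +
      ∏ x ∈ H with st m g x = c, E x (xor false (s x)) := by
    intro c _
    unfold sw
    rw [Fintype.sum_bool]
  rw [Finset.prod_congr rfl e1, Finset.prod_add]
  symm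
  let i : Finset (St m g) → Finset α := fun A => H.filter (fun x => xor (decide (st m g x ∈ A)) (s x) = true)
  let j : Finset α → Finset (St m g) := fun O =>
    C.filter (fun c => ∃ x ∈ H, st m g x = c ∧ xor (decide (x ∈ O)) (s x) = true)
  have hi : ∀ A x, x ∈ H → decide (x ∈ i A) = xor (decide (st m g x ∈ A)) (s x) := by
    intro A x hx
    have : x ∈ i A ↔ xor (decide (st m g x ∈ A)) (s x) = true := by
      simp only [i, Finset.mem_filter, hx, true_and]
    by_cases h1 : xor (decide (st m g x ∈ A)) (s x) = true
    · rw [h1, decide_eq_true_iff]; exact this.2 h1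
    · rw [Bool.not_eq_true] at h1
      rw [h1, decide_eq_false_iff_not, this, h1]
      exact Bool.false_ne_true
  refine Finset.sum_nbij' i j ?_ ?_ ?_ ?_ ?_
  · intro A hA
    rw [Finset.mem_filter, Finset.mem_powerset]
    refine ⟨Finset.filter_subset _ _, ?_⟩
    intro x hx
    have key : ∀ y ∈ H, (y ∈ i A ↔ xor (decide (st m g y ∈ A)) (s y) = true) := fun y hy => by
      simp only [i, Finset.mem_filter, hy, true_and]
    refine ⟨?_, fun hgx => ?_⟩
    · rw [key _ (hm x hx), key _ hx, st_m, (hs x hx).1]
      cases decide (st m g x ∈ A) <;> cases s x <;> simp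
    · rw [key _ (hg x hx), key _ hx, st_g, (hs x hx).2 hgx]
      cases decide (st m g x ∈ A) <;> cases s x <;> simp
  · intro O _
    rw [Finset.mem_powerset]
    exact Finset.filter_subset _ _
  · intro A hA
    rw [Finset.mem_powerset] at hA
    ext c
    simp only [j, Finset.mem_filter]
    constructor
    · rintro ⟨_, x, hx, rfl, h2⟩
      rw [hi A x hx] at h2
      cases h3 : decide (st m g x ∈ A)
      · rw [h3] at h2
        cases s x <;> simp at h2
      · exact of_decide_eq_true h3
    · intro hc
      refine ⟨hA hc, ?_⟩
      obtain ⟨x, hx, rfl⟩ := Finset.mem_image.1 (hA hc)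
      refine ⟨x, hx, rfl, ?_⟩
      rw [hi A x hx, decide_eq_true hc]
      cases s x <;> rfl
  · intro O hO
    rw [Finset.mem_filter, Finset.mem_powerset] at hO
    obtain ⟨hO1, hO2⟩ := hO
    have ho : ∀ x ∈ H, (fun x => decide (x ∈ O)) (m x) = !(fun x => decide (x ∈ O)) x ∧
        (g x ≠ x → (fun x => decide (x ∈ O)) (g x) = !(fun x => decide (x ∈ O)) x) := by
      intro x hx
      refine ⟨?_, fun hgx => ?_⟩
      · show decide _ = !decide _
        rw [← decide_not]
        exact decide_eq_decide.2 (hO2 x hx).1
      · show decide _ = !decide _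
        rw [← decide_not]
        exact decide_eq_decide.2 ((hO2 x hx).2 hgx)
    ext x
    constructor
    · intro hx
      have hxH : x ∈ H := Finset.mem_of_mem_filter x hx
      have h1 : decide (x ∈ i (j O)) = true := decide_eq_true hx
      rw [hi _ x hxH] at h1
      by_cases h2 : st m g x ∈ j O
      · rw [decide_eq_true h2] at h1
        simp only [j, Finset.mem_filter] at h2
        obtain ⟨_, y, hy, hyx, h3⟩ := h2
        have h4 := (ori_conn (s := fun x => decide (x ∈ O)) hm hg ho hs hy (h.st_eq.1 hyx)).2
        rw [h3] at h4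
        cases h5 : s x
        · rw [h5] at h4
          simpa using h4
        · rw [h5] at h1
          simp at h1
      · rw [decide_eq_false h2] at h1
        by_contra h3
        apply h2
        simp only [j, Finset.mem_filter]
        refine ⟨Finset.mem_image_of_mem _ hxH, x, hxH, rfl, ?_⟩
        rw [decide_eq_false h3]
        exact h1
    · intro hx
      have hxH := hO1 hx
      have h1 : decide (x ∈ i (j O)) = true := by
        rw [hi _ x hxH]
        by_cases h2 : st m g x ∈ j O
        · rw [decide_eq_true h2]
          simp only [j, Finset.mem_filter] at h2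
          obtain ⟨_, y, hy, hyx, h3⟩ := h2
          have h4 := (ori_conn (s := fun x => decide (x ∈ O)) hm hg ho hs hy (h.st_eq.1 hyx)).2
          rw [h3, decide_eq_true hx] at h4
          cases h5 : s x
          · rfl
          · rw [h5] at h4
            simp at h4
        · rw [decide_eq_false h2]
          cases h5 : s x
          · exfalso
            apply h2
            simp only [j, Finset.mem_filter]
            refine ⟨Finset.mem_image_of_mem _ hxH, x, hxH, rfl, ?_⟩
            rw [decide_eq_true hx, h5]
            rfl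
          · rfl
      exact of_decide_eq_true h1
  · intro A hA
    rw [Finset.mem_powerset] at hA
    have e2 : ∏ x ∈ H, E x (decide (x ∈ i A)) =
        ∏ c ∈ C, ∏ x ∈ H with st m g x = c, E x (xor (decide (c ∈ A)) (s x)) := by
      rw [← Finset.prod_fiberwise_of_maps_to (s := H) (t := C) (g := st m g)
        (fun x hx => Finset.mem_image_of_mem _ hx)]
      refine Finset.prod_congr rfl fun c _ => Finset.prod_congr rfl fun x hx => ?_
      rw [Finset.mem_filter] at hx
      rw [hi A x hx.1, hx.2]
    rw [e2, ← Finset.prod_sdiff hA, mul_comm]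
    congr 1
    · refine Finset.prod_congr rfl fun c hc => ?_
      rw [Finset.mem_sdiff] at hc
      rw [decide_eq_false hc.2]
    · refine Finset.prod_congr rfl fun c hc => ?_
      rw [decide_eq_true hc]

/-- the factor of a strand does not depend on the orientation -/
theorem sw_congr {H : Finset α} (hm : ∀ x ∈ H, m x ∈ H) (hg : ∀ x ∈ H, g x ∈ H)
    {s s' : α → Bool} (hs : ∀ x ∈ H, s (m x) = !s x ∧ (g x ≠ x → s (g x) = !s x))
    (hs' : ∀ x ∈ H, s' (m x) = !s' x ∧ (g x ≠ x → s' (g x) = !s' x)) (h : Two m g)
    (E : α → Bool → R) (c : St m g) : sw m g H E s c = sw m g H E s' c := by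
  classical
  unfold sw
  by_cases hc : ∃ x ∈ H, st m g x = c
  · obtain ⟨x, hx, rfl⟩ := hc
    have key : ∀ y ∈ H, st m g y = st m g x → xor (s y) (s' y) = xor (s x) (s' x) := fun y _ hy =>
      (ori_conn hm hg hs hs' hx (h.st_eq.1 hy.symm)).2
    cases hb : xor (s x) (s' x)
    · refine Finset.sum_congr rfl fun a _ => Finset.prod_congr rfl fun y hy => ?_
      rw [Finset.mem_filter] at hy
      have := key y hy.1 hy.2
      rw [hb] at this
      have e : s y = s' y := by
        cases h1 : s y <;> cases h2 : s' y <;> simp [h1, h2] at this ⊢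
      rw [e]
    · rw [Fintype.sum_bool, Fintype.sum_bool, add_comm]
      congr 1
      all_goals
        refine Finset.prod_congr rfl fun y hy => ?_
        rw [Finset.mem_filter] at hy
        have := key y hy.1 hy.2
        rw [hb] at this
        have e : s y = !s' y := by
          cases h1 : s y <;> cases h2 : s' y <;> simp [h1, h2] at this ⊢
        rw [e]
        cases s' y <;> rfl
  · have : ∀ a : Bool, (∏ y ∈ H with st m g y = c, E y (xor a (s y))) =
        ∏ y ∈ H with st m g y = c, E y (xor a (s' y)) := by
      intro a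
      refine Finset.prod_congr rfl fun y hy => ?_
      rw [Finset.mem_filter] at hy
      exact absurd ⟨y, hy.1, hy.2⟩ hc
    exact Finset.sum_congr rfl fun a _ => this a

end Full
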