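import Pool.Agent.Full.Net.Net

/-!
# Factors of open and closed strands

The factor of an open strand with the end `e` is evaluated along the walk `(g ∘ m)^[k] e`,
`k < hl m g e` (half of the period); the factor of a closed strand along its period.
-/

set_option autoImplicit false

namespace Full
open Function Relation Finset

variable {α : Type*} {m g : α → α}

/-- number of arcs of the strand which starts at the end `e` -/
noncomputable def hl (m g : α → α) (e : α) : ℕ := minimalPeriod (g ∘ m) e / 2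

/-- the set of points of a strand, by a fundamental domain -/
theorem sw_dom {R : Type*} [CommSemiring R] (H : Finset α)
    {s : α → Bool} (hs : ∀ x ∈ H, s (m x) = !s x) (h : Two m g)
    (E : α → Bool → R) {x : α} {N : ℕ} (hH : ∀ k < N, (g ∘ m)^[k] x ∈ H)
    (hmH : ∀ k < N, m ((g ∘ m)^[k] x) ∈ H)
    (h1 : ∀ k < N, s ((g ∘ m)^[k] x) = s x)
    (h2 : ∀ k < N, ∀ l < N, (g ∘ m)^[k] x = (g ∘ m)^[l] x → k = l)
    (h3 : ∀ y, Conn m g x y → ∃ k < N, y = (g ∘ m)^[k] x ∨ y = m ((g ∘ m)^[k] x)) :
    sw m g H E s (st m g x) =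
      ∏ k ∈ range N, (E ((g ∘ m)^[k] x) false * E (m ((g ∘ m)^[k] x)) true) +
      ∏ k ∈ range N, (E ((g ∘ m)^[k] x) true * E (m ((g ∘ m)^[k] x)) false) := by
  classical
  have key : ∀ a : Bool, ∏ y ∈ H with st m g y = st m g x, E y (xor a (s y)) =
      ∏ k ∈ range N, (E ((g ∘ m)^[k] x) (xor a (s x)) * E (m ((g ∘ m)^[k] x)) (!(xor a (s x)))) := by
    intro a
    have e1 : (H.filter fun y => st m g y = st m g x) =
        (range N).image (fun k => (g ∘ m)^[k] x) ∪ (range N).image (fun k => m ((g ∘ m)^[k] x)) := by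
      ext y
      simp only [Finset.mem_filter, Finset.mem_union, Finset.mem_image, Finset.mem_range]
      constructor
      · rintro ⟨_, hy⟩
        obtain ⟨k, hk, h4⟩ := h3 y (h.st_eq.1 hy.symm)
        rcases h4 with h4 | h4
        · exact Or.inl ⟨k, hk, h4.symm⟩
        · exact Or.inr ⟨k, hk, h4.symm⟩
      · rintro (⟨k, hk, rfl⟩ | ⟨k, hk, rfl⟩)
        · exact ⟨hH k hk, st_iter k x⟩
        · exact ⟨hmH k hk, (st_m _).trans (st_iter k x)⟩
    rw [e1, Finset.prod_union, Finset.prod_image, Finset.prod_image, ← Finset.prod_mul_distrib]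
    · refine Finset.prod_congr rfl fun k hk => ?_
      rw [Finset.mem_range] at hk
      rw [hs _ (hH k hk), h1 k hk]
      congr 2
      cases a <;> cases s x <;> rfl
    · intro k hk l hl hkl
      simp only [Finset.coe_range, Set.mem_Iio] at hk hl
      have := congrArg m hkl
      simp only [h.m_inv] at this
      exact h2 k hk l hl this
    · intro k hk l hl hkl
      simp only [Finset.coe_range, Set.mem_Iio] at hk hl
      exact h2 k hk l hl hkl
    · rw [Finset.disjoint_left]
      intro y hy1 hy2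
      simp only [Finset.mem_image, Finset.mem_range] at hy1 hy2
      obtain ⟨k, hk, rfl⟩ := hy1
      obtain ⟨l, hl, h4⟩ := hy2
      have h5 := congrArg s h4
      rw [hs _ (hH l hl), h1 l hl, h1 k hk] at h5
      cases s x <;> simp at h5
  unfold sw
  rw [Fintype.sum_bool, key, key]
  cases s x
  · rw [add_comm]
    rfl
  · rfl

/-- the points of an open strand -/
theorem Two.dom_open (h : Two m g) {e : α} (he : g e = e) (hp : e ∈ periodicPts (g ∘ m)) {y : α}
    (hc : Conn m g e y) : ∃ k < hl m g e, y = (g ∘ m)^[k] e ∨ y = m ((g ∘ m)^[k] e) := by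
  obtain ⟨k, hk, rfl⟩ := h.exists_iter he hp hc
  have h0 := h.even he hp
  unfold hl
  by_cases h1 : k < minimalPeriod (g ∘ m) e / 2
  · exact ⟨k, h1, Or.inl rfl⟩
  · refine ⟨minimalPeriod (g ∘ m) e - (k + 1), by omega, Or.inr ?_⟩
    rw [h.m_iter he (by omega)]
    congr 1
    omega

/-- the inner points of an open strand are moved by `g` -/
theorem Two.open_ne (h : Two m g) {e : α} (he : g e = e) (hp : e ∈ periodicPts (g ∘ m)) {k : ℕ}
    (hk : k + 1 < hl m g e) : g (m ((g ∘ m)^[k] e)) ≠ m ((g ∘ m)^[k] e) := by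
  have h0 := h.even he hp
  unfold hl at hk
  intro h1
  rw [h.m_iter he (by omega)] at h1
  have h2 : (g ∘ m)^[k + 1] e = (g ∘ m)^[minimalPeriod (g ∘ m) e - (k + 1)] e := by
    have h3 : g (m ((g ∘ m)^[k] e)) = (g ∘ m)^[k + 1] e := by
      rw [iterate_succ_apply']
      rfl
    rw [← h3, h.m_iter he (by omega), h1]
  have h4 := (iterate_eq_iterate_iff_of_lt_minimalPeriod (f := g ∘ m) (x := e) (by omega)
    (by omega)).1 h2
  omega

/-- the last point of an open strand -/
theorem Two.open_last (h : Two m g) {e : α} (he : g e = e) (hp : e ∈ periodicPts (g ∘ m)) :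
    0 < hl m g e ∧ m ((g ∘ m)^[hl m g e - 1] e) = other m g e := by
  have h0 := h.even he hp
  have hpos := Two.period_pos hp
  have h1 : 0 < hl m g e := by unfold hl; omega
  refine ⟨h1, ?_⟩
  have h2 : g (m ((g ∘ m)^[hl m g e - 1] e)) = other m g e := by
    unfold other
    have : minimalPeriod (g ∘ m) e / 2 = (hl m g e - 1) + 1 := by unfold hl at h1 ⊢; omega
    rw [this, iterate_succ_apply']
    rfl
  rw [← h.g_inv (m ((g ∘ m)^[hl m g e - 1] e)), h2]
  exact h.other_fix he hp

/-- **the factor of an open strand** -/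
theorem sw_open {R : Type*} [CommSemiring R] {H : Finset α} (hm : ∀ x ∈ H, m x ∈ H)
    (hg : ∀ x ∈ H, g x ∈ H)
    {s : α → Bool} (hs : ∀ x ∈ H, s (m x) = !s x ∧ (g x ≠ x → s (g x) = !s x)) (h : Two m g)
    (E : α → Bool → R) {e : α} (heH : e ∈ H) (he : g e = e) (hp : e ∈ periodicPts (g ∘ m)) :
    sw m g H E s (st m g e) =
      ∏ k ∈ range (hl m g e), (E ((g ∘ m)^[k] e) false * E (m ((g ∘ m)^[k] e)) true) +
      ∏ k ∈ range (hl m g e), (E ((g ∘ m)^[k] e) true * E (m ((g ∘ m)^[k] e)) false) := by
  have hH : ∀ k, (g ∘ m)^[k] e ∈ H := by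
    intro k
    induction k with
    | zero => exact heH
    | succ k ih => rw [iterate_succ_apply']; exact hg _ (hm _ ih)
  have h0 := h.even he hp
  refine sw_dom H (fun x hx => (hs x hx).1) h E (fun k _ => hH k) (fun k _ => hm _ (hH k)) ?_ ?_
    (fun y hy => h.dom_open he hp hy)
  · intro k hk
    induction k with
    | zero => rfl
    | succ k ih =>
      have h1 := ih (by omega)
      rw [iterate_succ_apply', comp_apply, (hs _ (hm _ (hH k))).2 (h.open_ne he hp hk),
        (hs _ (hH k)).1, h1, Bool.not_not]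
  · intro k hk l hl' hkl
    unfold hl at hk hl'
    exact (iterate_eq_iterate_iff_of_lt_minimalPeriod (f := g ∘ m) (x := e) (by omega)
      (by omega)).1 hkl

/-- the points of a strand -/
theorem Two.dom_closed (h : Two m g) {x : α} (hp : x ∈ periodicPts (g ∘ m)) {y : α}
    (hc : Conn m g x y) :
    ∃ k < minimalPeriod (g ∘ m) x, y = (g ∘ m)^[k] x ∨ y = m ((g ∘ m)^[k] x) := by
  have hpos := Two.period_pos hp
  induction hc with
  | refl => exact ⟨0, hpos, Or.inl rfl⟩
  | @tail b c _ h2 ih =>
    obtain ⟨k, hk, ih⟩ := ih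
    rcases h2 with rfl | rfl
    · refine ⟨k, hk, ?_⟩
      rcases ih with rfl | rfl
      · exact Or.inr rfl
      · exact Or.inl (h.m_inv _)
    · rcases ih with rfl | rfl
      · rcases Nat.eq_zero_or_pos k with rfl | hk0
        · refine ⟨minimalPeriod (g ∘ m) x - 1, by omega, Or.inr ?_⟩
          have h3 : (g ∘ m)^[minimalPeriod (g ∘ m) x - 1 + 1] x = x := by
            rw [Nat.sub_add_cancel hpos]
            exact iterate_minimalPeriod
          rw [iterate_succ_apply'] at h3
          show g x = _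
          conv_lhs => rw [← h3]
          show g (g (m _)) = _
          rw [h.g_inv]
        · refine ⟨k - 1, by omega, Or.inr ?_⟩
          have h3 : (g ∘ m)^[k] x = g (m ((g ∘ m)^[k - 1] x)) := by
            conv_lhs => rw [show k = (k - 1) + 1 by omega]
            rw [iterate_succ_apply']
            rfl
          rw [h3, h.g_inv]
      · by_cases hk1 : k + 1 = minimalPeriod (g ∘ m) x
        · refine ⟨0, hpos, Or.inl ?_⟩
          have h3 : g (m ((g ∘ m)^[k] x)) = (g ∘ m)^[k + 1] x := by
            rw [iterate_succ_apply']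
            rfl
          rw [h3, hk1, iterate_minimalPeriod]
          rfl
        · refine ⟨k + 1, by omega, Or.inl ?_⟩
          rw [iterate_succ_apply']
          rfl

/-- **the factor of a closed strand** -/
theorem sw_closed {R : Type*} [CommSemiring R] {H : Finset α} (hm : ∀ x ∈ H, m x ∈ H)
    (hg : ∀ x ∈ H, g x ∈ H)
    {s : α → Bool} (hs : ∀ x ∈ H, s (m x) = !s x ∧ (g x ≠ x → s (g x) = !s x)) (h : Two m g)
    (E : α → Bool → R) {x : α} (hxH : x ∈ H) (hp : x ∈ periodicPts (g ∘ m))
    (hx : ∀ k, g (m ((g ∘ m)^[k] x)) ≠ m ((g ∘ m)^[k] x)) :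
    sw m g H E s (st m g x) =
      ∏ k ∈ range (minimalPeriod (g ∘ m) x),
        (E ((g ∘ m)^[k] x) false * E (m ((g ∘ m)^[k] x)) true) +
      ∏ k ∈ range (minimalPeriod (g ∘ m) x),
        (E ((g ∘ m)^[k] x) true * E (m ((g ∘ m)^[k] x)) false) := by
  have hH : ∀ k, (g ∘ m)^[k] x ∈ H := by
    intro k
    induction k with
    | zero => exact hxH
    | succ k ih => rw [iterate_succ_apply']; exact hg _ (hm _ ih)
  refine sw_dom H (fun x hx => (hs x hx).1) h E (fun k _ => hH k) (fun k _ => hm _ (hH k)) ?_ ?_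
    (fun y hy => h.dom_closed hp hy)
  · intro k _
    induction k with
    | zero => rfl
    | succ k ih =>
      have h1 := ih (by omega)
      rw [iterate_succ_apply', comp_apply, (hs _ (hm _ (hH k))).2 (hx k), (hs _ (hH k)).1, h1,
        Bool.not_not]
  · intro k hk l hl' hkl
    exact (iterate_eq_iterate_iff_of_lt_minimalPeriod (f := g ∘ m) (x := x) (by omega)
      (by omega)).1 hkl

end Full
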